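import Pool.Agent.H62.N6.Defs

/-! MODULE GermL (about 130 lines). The ring `*ℤ = Germ U ℤ` between `ℕ → ℤ` and `K`, `k`.

`exists_liftK`: `φ` is constant on the classes of the germs (`hK.ker` applied to the difference): define `φ'` by `Germ.liftOn` (ring homomorphism: `Germ.inductionOn`), or as `RingHom.liftOfSurjective`/`RingHom.liftOfRightInverse` of `Germ.coeRingHom` (surjective, its kernel is in the kernel of `φ`). Injective: `hK.ker` again.
`exists_liftP`: the same for `ψ`; `ψ a = 0` iff eventually `p j ∣ a j` iff `pg U p ∣ a` in `*ℤ` (choose the quotients, `Germ.coe_eq`). `dvd_iff`: `Germ.inductionOn`, `Germ.coe_eq`; from right to left choose the quotients. `det_zg`: `Germ.coeRingHom`, `RingHom.map_det` (for it and for `Pi.evalRingHom`), as `eval_gp` in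
Pool/Agent/H19/N64/Frame.lean. `redI_eq`: `map φ = (map φ').comp (map coe)`, `Ideal.comap_comap`, `Ideal.map_map`, `Ideal.map_comap_of_surjective` (`MvPolynomial.map_surjective`, `Quotient.exists_rep`). `PA_eval`: `φ' (eval (gg U z) g) = eval (ptS φ z) (map φ' g) = 0`, injectivity. -/

set_option autoImplicit false

namespace Pool.Agent.H37.DTA

open MvPolynomial Filter Pool.Agent.H62.N6

variable (U : Ultrafilter ℕ)

/-- the ultrapower of `ℤ` -/
abbrev ZG : Type := (U : Filter ℕ).Germ ℤ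

/-- the element of `*ℤ` of a sequence of natural numbers -/
noncomputable def pg (p : ℕ → ℕ) : ZG U := ((fun j => (p j : ℤ) : ℕ → ℤ) : ZG U)

/-- the `*ℤ`-point of a sequence of integral points -/
noncomputable def gg {σ : Type} (z : ℕ → σ → ℤ) : σ → ZG U :=
  fun i => ((fun j => z j i : ℕ → ℤ) : ZG U)

variable {U}

private theorem GermL_surj : Function.Surjective (Germ.coeRingHom (R := ℤ) (U : Filter ℕ)) := by
  intro x
  induction x using Filter.Germ.inductionOn with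
  | _ f => exact ⟨f, rfl⟩

private theorem GermL_eq (a b : ℕ → ℤ) :
    Germ.coeRingHom (R := ℤ) (U : Filter ℕ) a = Germ.coeRingHom (U : Filter ℕ) b ↔
      ∀ᶠ j in (U : Filter ℕ), a j = b j := Germ.coe_eq

private theorem GermL_zero (a : ℕ → ℤ) :
    Germ.coeRingHom (R := ℤ) (U : Filter ℕ) a = 0 ↔ ∀ᶠ j in (U : Filter ℕ), a j = 0 := by
  have h := GermL_eq (U := U) a 0
  rw [map_zero] at h
  exact h

private theorem GermL_lift {A : Type} [CommRing A] (φ : (ℕ → ℤ) →+* A)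
    (h : ∀ a : ℕ → ℤ, (∀ᶠ j in (U : Filter ℕ), a j = 0) → φ a = 0) :
    ∃ φ' : ZG U →+* A, ∀ a : ℕ → ℤ, φ' (a : ZG U) = φ a := by
  have hle : RingHom.ker (Germ.coeRingHom (R := ℤ) (U : Filter ℕ)) ≤ RingHom.ker φ := by
    intro a ha
    rw [RingHom.mem_ker] at ha ⊢
    exact h a ((GermL_zero a).1 ha)
  refine ⟨RingHom.liftOfSurjective _ GermL_surj ⟨φ, hle⟩, ?_⟩
  intro a
  exact RingHom.liftOfRightInverse_comp_apply (Germ.coeRingHom (R := ℤ) (U : Filter ℕ)) _ _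
    ⟨φ, hle⟩ a

theorem exists_liftK {K : Type} [Field K] {φ : (ℕ → ℤ) →+* K} (hK : IsK U φ) :
    ∃ φ' : ZG U →+* K, Function.Injective φ' ∧ ∀ a : ℕ → ℤ, φ' (a : ZG U) = φ a := by
  obtain ⟨φ', h⟩ := GermL_lift (U := U) φ (fun a ha => (hK.ker a).2 ha)
  refine ⟨φ', ?_, h⟩
  rw [injective_iff_map_eq_zero]
  intro x hx
  obtain ⟨a, rfl⟩ := GermL_surj x
  refine (GermL_zero a).2 ((hK.ker a).1 ?_)
  rw [← h a]
  exact hx

theorem dvd_iff (p : ℕ → ℕ) (n : ℕ) (f : ℕ → ℤ) :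
    pg U p ^ n ∣ ((f : ℕ → ℤ) : ZG U) ↔ ∀ᶠ j in (U : Filter ℕ), ((p j : ℤ)) ^ n ∣ f j := by
  have h0 : pg U p ^ n = Germ.coeRingHom (R := ℤ) (U : Filter ℕ) (fun j => (p j : ℤ) ^ n) := by
    have h1 : (fun j => (p j : ℤ) ^ n : ℕ → ℤ) = (fun j => (p j : ℤ)) ^ n := rfl
    rw [h1, map_pow]
    rfl
  rw [h0]
  constructor
  · rintro ⟨x, hx⟩
    obtain ⟨g, rfl⟩ := GermL_surj x
    rw [← map_mul] at hx
    have h2 := (GermL_eq (U := U) f _).1 hx
    filter_upwards [h2] with j hj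
    exact ⟨g j, hj⟩
  · intro h
    refine ⟨Germ.coeRingHom (R := ℤ) (U : Filter ℕ) (fun j => f j / (p j : ℤ) ^ n), ?_⟩
    rw [← map_mul]
    refine (GermL_eq (U := U) f _).2 ?_
    filter_upwards [h] with j hj
    exact (Int.mul_ediv_cancel' hj).symm

theorem exists_liftP {p : ℕ → ℕ} {k : Type} [Field k] {ψ : (ℕ → ℤ) →+* k} (hψ : IsP U p ψ) :
    ∃ q : ZG U →+* k, Function.Surjective q ∧ RingHom.ker q = Ideal.span {pg U p} ∧
      ∀ a : ℕ → ℤ, q (a : ZG U) = ψ a := by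
  obtain ⟨q, h⟩ := GermL_lift (U := U) ψ (fun a ha => (hψ.ker a).2 (by
    filter_upwards [ha] with j hj
    rw [hj]
    exact dvd_zero _))
  refine ⟨q, ?_, ?_, h⟩
  · intro x
    obtain ⟨a, rfl⟩ := hψ.surj x
    exact ⟨_, h a⟩
  · ext x
    obtain ⟨a, rfl⟩ := GermL_surj x
    rw [RingHom.mem_ker, Ideal.mem_span_singleton]
    have h1 := dvd_iff (U := U) p 1 a
    rw [pow_one] at h1
    have h2 : q (Germ.coeRingHom (R := ℤ) (U : Filter ℕ) a) = ψ a := h a
    rw [h2, hψ.ker]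
    refine Iff.trans ?_ h1.symm
    simp only [pow_one]

theorem det_zg {s : ℕ} (M : ℕ → Matrix (Fin s) (Fin s) ℤ) :
    (Matrix.of fun i l => ((fun j => M j i l : ℕ → ℤ) : ZG U)).det =
      ((fun j => (M j).det : ℕ → ℤ) : ZG U) := by
  have h1 : (Matrix.of fun i l => ((fun j => M j i l : ℕ → ℤ) : ZG U)) =
      (Germ.coeRingHom (R := ℤ) (U : Filter ℕ)).mapMatrix
        (Matrix.of fun i l => (fun j => M j i l : ℕ → ℤ)) := rfl
  rw [h1, ← RingHom.map_det]
  have h2 : (Matrix.of fun i l => (fun j => M j i l : ℕ → ℤ)).det = fun j => (M j).det := by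
    funext j
    have h3 := RingHom.map_det (Pi.evalRingHom (fun _ : ℕ => ℤ) j)
      (Matrix.of fun i l => (fun j => M j i l : ℕ → ℤ))
    exact h3
  rw [h2]
  rfl

theorem eval_mon_zg {σ : Type} [Fintype σ] (z : ℕ → σ → ℤ) (μ : σ →₀ ℕ) :
    eval (gg U z) (monomial μ (1 : ZG U)) =
      ((fun j => eval (z j) (monomial μ (1 : ℤ)) : ℕ → ℤ) : ZG U) := by
  have h1 : (fun j => eval (z j) (monomial μ (1 : ℤ)) : ℕ → ℤ) =
      μ.prod fun i e => (fun j => z j i : ℕ → ℤ) ^ e := by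
    funext j
    rw [eval_monomial, one_mul, Finsupp.prod, Finsupp.prod, Finset.prod_apply]
    rfl
  rw [h1, eval_monomial, one_mul]
  have h2 : ((μ.prod fun i e => (fun j => z j i : ℕ → ℤ) ^ e : ℕ → ℤ) : ZG U) =
      Germ.coeRingHom (R := ℤ) (U : Filter ℕ) (μ.prod fun i e => (fun j => z j i : ℕ → ℤ) ^ e) :=
    rfl
  rw [h2, Finsupp.prod, Finsupp.prod, map_prod]
  refine Finset.prod_congr rfl fun i _ => ?_
  rw [map_pow]
  rfl

theorem redI_eq {σ K k : Type} [Field K] [Field k] {φ : (ℕ → ℤ) →+* K} {ψ : (ℕ → ℤ) →+* k}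
    (φ' : ZG U →+* K) (hφ' : ∀ a : ℕ → ℤ, φ' (a : ZG U) = φ a)
    (q : ZG U →+* k) (hq : ∀ a : ℕ → ℤ, q (a : ZG U) = ψ a) (P : Ideal (MvPolynomial σ K)) :
    redI φ ψ P = (P.comap (MvPolynomial.map φ')).map (MvPolynomial.map q) := by
  have h1 : φ = φ'.comp (Germ.coeRingHom (R := ℤ) (U : Filter ℕ)) :=
    RingHom.ext fun a => (hφ' a).symm
  have h2 : ψ = q.comp (Germ.coeRingHom (R := ℤ) (U : Filter ℕ)) :=
    RingHom.ext fun a => (hq a).symm
  have h3 : ∀ {A : Type} [CommRing A] (g : ZG U →+* A),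
      MvPolynomial.map (σ := σ) (g.comp (Germ.coeRingHom (R := ℤ) (U : Filter ℕ))) =
        (MvPolynomial.map g).comp (MvPolynomial.map (Germ.coeRingHom (R := ℤ) (U : Filter ℕ))) := by
    intro A _ g
    refine RingHom.ext fun p => ?_
    rw [RingHom.comp_apply, MvPolynomial.map_map]
  unfold redI
  rw [h1, h2, h3 φ', h3 q, ← Ideal.comap_comap, ← Ideal.map_map,
    Ideal.map_comap_of_surjective _ (MvPolynomial.map_surjective _ GermL_surj)]

/-- `P ∩ *ℤ[X]` vanishes at the points of `V(P)` -/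
theorem PA_eval {σ K : Type} [Field K] {φ : (ℕ → ℤ) →+* K}
    (φ' : ZG U →+* K) (hinj : Function.Injective φ') (hφ' : ∀ a : ℕ → ℤ, φ' (a : ZG U) = φ a)
    (P : Ideal (MvPolynomial σ K)) (z : ℕ → σ → ℤ) (hz : ∀ F ∈ P, eval (ptS φ z) F = 0)
    (g : MvPolynomial σ (ZG U)) (hg : g ∈ P.comap (MvPolynomial.map φ')) :
    eval (gg U z) g = 0 := by
  apply hinj
  rw [map_zero, ← hz _ hg, MvPolynomial.eval_map]
  have h1 : eval (gg U z) g = eval₂ (RingHom.id _) (gg U z) g := rfl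
  rw [h1, MvPolynomial.eval₂_comp_left, RingHom.comp_id]
  congr 1
  funext i
  exact hφ' _

end Pool.Agent.H37.DTA
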