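import Pool.Agent.H37.DTA.FrDefs

/-! MODULE MonB (about 120 lines). Basis of monomials adapted to the degree.

By induction on `j` choose sets `T_j` of exponents, `T_0 ⊆ T_1 ⊆ ..`, such that the images of the monomials of `T_j` are a basis of `V j`, the image of `restrictTotalDegree σ κ j` in `R ⧸ I` (`V j` is spanned by the images of the `monomial α 1`, `α.degree ≤ j`; extend a linearly independent family:
`exists_linearIndependent_extension` / `LinearIndepOn.extend`, applied in the finite set of exponents of degree `≤ j` to the map `α ↦ mk I (monomial α 1)`; use `LinearIndepOn` to avoid repetitions), so the members of `T_(j+1) \ T_j` have degree exactly `j+1`. (Or: take `T` greedily from the top: it is enough to have `T` with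
`T.filter (degree ≤ j)` independent and spanning `V j` for all `j ≤ D`.) `T_D.card = hP I D`, enumerate it (`Finset.equivFin`). `∑_(α ∈ T) α.degree = ∑_(α ∈ T) ∑_(j<D) [j < α.degree] = ∑_(j<D) #{α ∈ T : j < α.degree} = ∑_(j<D) (hP I D - hP I j)`. -/

set_option autoImplicit false

namespace Pool.Agent.H37.DTA

open MvPolynomial

/-- the space of polynomials of degree `≤ D` is finite dimensional, and so is its image -/
theorem finite_image {σ κ : Type*} [Fintype σ] [Field κ] (I : Ideal (MvPolynomial σ κ)) (D : ℕ) :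
    Module.Finite κ ((restrictTotalDegree σ κ D).map (Ideal.Quotient.mkₐ κ I).toLinearMap) :=
  inferInstance

theorem hP_mono {σ κ : Type*} [Fintype σ] [Field κ] (I : Ideal (MvPolynomial σ κ)) :
    Monotone (hP I) := by
  intro i j hij
  have := finite_image I j
  refine Submodule.finrank_mono (Submodule.map_mono ?_)
  intro p hp
  rw [mem_restrictTotalDegree] at hp ⊢
  exact hp.trans hij

section

variable {σ κ : Type*} [Fintype σ] [Field κ]

omit [Fintype σ] in
private theorem V_eq (I : Ideal (MvPolynomial σ κ)) (j : ℕ) :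
    (restrictTotalDegree σ κ j).map (Ideal.Quotient.mkₐ κ I).toLinearMap =
      Submodule.span κ ((fun α => Ideal.Quotient.mk I (monomial α (1 : κ))) ''
        {α : σ →₀ ℕ | α.degree ≤ j}) := by
  apply le_antisymm
  · rintro _ ⟨p, hp, rfl⟩
    have hp' : p.totalDegree ≤ j := (mem_restrictTotalDegree _ _ _).mp hp
    have h1 : (Ideal.Quotient.mkₐ κ I).toLinearMap p =
        ∑ α ∈ p.support, coeff α p • Ideal.Quotient.mk I (monomial α (1 : κ)) := by
      conv_lhs => rw [p.as_sum]
      rw [map_sum]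
      refine Finset.sum_congr rfl fun α _ => ?_
      have h2 : monomial α (coeff α p) = coeff α p • monomial α (1 : κ) := by
        rw [smul_monomial, smul_eq_mul, mul_one]
      rw [h2, map_smul]
      rfl
    rw [h1]
    refine Submodule.sum_mem _ fun α hα => Submodule.smul_mem _ _ (Submodule.subset_span ?_)
    exact ⟨α, (le_totalDegree hα).trans hp', rfl⟩
  · rw [Submodule.span_le]
    rintro _ ⟨α, hα, rfl⟩
    refine ⟨monomial α 1, ?_, rfl⟩
    rw [SetLike.mem_coe, mem_restrictTotalDegree]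
    exact (totalDegree_monomial_le _ _).trans hα

private theorem fin_deg (j : ℕ) : {α : σ →₀ ℕ | α.degree ≤ j}.Finite := by
  classical
  refine (Set.finite_Iic (Finsupp.equivFunOnFinite.symm (fun _ : σ => j))).subset ?_
  intro α hα i
  exact (Finsupp.le_degree i α).trans hα

private theorem ext_T (I : Ideal (MvPolynomial σ κ)) {j : ℕ} (T : Finset (σ →₀ ℕ))
    (hT : ∀ α ∈ T, α.degree ≤ j)
    (hli : LinearIndepOn κ (fun α => Ideal.Quotient.mk I (monomial α (1 : κ))) (T : Set (σ →₀ ℕ))) :
    ∃ T' : Finset (σ →₀ ℕ), T ⊆ T' ∧ (∀ α ∈ T', α.degree ≤ j) ∧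
      LinearIndepOn κ (fun α => Ideal.Quotient.mk I (monomial α (1 : κ)))
        (T' : Set (σ →₀ ℕ)) ∧
      T'.card = hP I j := by
  obtain ⟨b, hb1, hb2, hb3, hb4⟩ := exists_linearIndepOn_extension
    (t := {α : σ →₀ ℕ | α.degree ≤ j}) hli (fun α hα => hT α hα)
  have hfin : b.Finite := (fin_deg j).subset hb1
  have hcoe : ((hfin.toFinset : Finset (σ →₀ ℕ)) : Set (σ →₀ ℕ)) = b := hfin.coe_toFinset
  have hli' : LinearIndepOn κ (fun α => Ideal.Quotient.mk I (monomial α (1 : κ)))
      ((hfin.toFinset : Finset (σ →₀ ℕ)) : Set (σ →₀ ℕ)) := by rw [hcoe]; exact hb4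
  refine ⟨hfin.toFinset, ?_, ?_, hli', ?_⟩
  · intro α hα
    exact hfin.mem_toFinset.mpr (hb2 hα)
  · intro α hα
    exact hb1 (hfin.mem_toFinset.mp hα)
  · have h1 := finrank_span_eq_card hli'
    rw [hP, V_eq]
    have h2 : Submodule.span κ ((fun α => Ideal.Quotient.mk I (monomial α (1 : κ))) ''
        {α : σ →₀ ℕ | α.degree ≤ j}) = Submodule.span κ (Set.range
          (fun x : ((hfin.toFinset : Finset (σ →₀ ℕ)) : Set (σ →₀ ℕ)) =>
            Ideal.Quotient.mk I (monomial x.1 (1 : κ)))) := by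
      have h3 : Set.range (fun x : ((hfin.toFinset : Finset (σ →₀ ℕ)) : Set (σ →₀ ℕ)) =>
          Ideal.Quotient.mk I (monomial x.1 (1 : κ))) =
          (fun α => Ideal.Quotient.mk I (monomial α (1 : κ))) '' b := by
        ext v
        constructor
        · rintro ⟨x, rfl⟩
          exact ⟨x.1, hfin.mem_toFinset.mp x.2, rfl⟩
        · rintro ⟨x, hx, rfl⟩
          exact ⟨⟨x, hfin.mem_toFinset.mpr hx⟩, rfl⟩
      rw [h3]
      exact le_antisymm (Submodule.span_le.mpr hb3)
        (Submodule.span_mono (Set.image_mono hb1))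
    rw [h2, h1]
    simp

private theorem exists_T (I : Ideal (MvPolynomial σ κ)) (j : ℕ) :
    ∃ T : Finset (σ →₀ ℕ), (∀ α ∈ T, α.degree ≤ j) ∧
      LinearIndepOn κ (fun α => Ideal.Quotient.mk I (monomial α (1 : κ)))
        (T : Set (σ →₀ ℕ)) ∧ T.card = hP I j ∧
      ∑ α ∈ T, α.degree ≤ ∑ i ∈ Finset.range j, (hP I j - hP I i) := by
  classical
  induction j with
  | zero =>
    obtain ⟨T, -, h2, h3, h4⟩ := ext_T I (j := 0) ∅ (by simp) (by simp)
    refine ⟨T, h2, h3, h4, ?_⟩
    rw [Finset.sum_eq_zero fun α hα => Nat.le_zero.mp (h2 α hα)]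
    exact Nat.zero_le _
  | succ j ih =>
    obtain ⟨T, h1, h2, h3, h4⟩ := ih
    obtain ⟨T', h5, h6, h7, h8⟩ := ext_T I (j := j + 1) T (fun α hα => (h1 α hα).trans (by omega)) h2
    refine ⟨T', h6, h7, h8, ?_⟩
    have hmono := hP_mono I
    rw [← Finset.sum_sdiff h5]
    have h9 : ∑ α ∈ T' \ T, α.degree ≤ (hP I (j + 1) - hP I j) * (j + 1) := by
      calc ∑ α ∈ T' \ T, α.degree ≤ ∑ _α ∈ T' \ T, (j + 1) :=
            Finset.sum_le_sum fun α hα => h6 α (Finset.mem_sdiff.mp hα).1
        _ = _ := by rw [Finset.sum_const, smul_eq_mul, Finset.card_sdiff_of_subset h5, h8, h3]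
    have h10 : ∑ i ∈ Finset.range (j + 1), (hP I (j + 1) - hP I i) =
        (hP I (j + 1) - hP I j) * (j + 1) + ∑ i ∈ Finset.range j, (hP I j - hP I i) := by
      have h11 : ∀ i ∈ Finset.range (j + 1), hP I (j + 1) - hP I i =
          (hP I (j + 1) - hP I j) + (hP I j - hP I i) := by
        intro i hi
        have h12 := hmono (Nat.lt_succ_iff.mp (Finset.mem_range.mp hi))
        have h13 := hmono (Nat.le_succ j)
        rw [Nat.succ_eq_add_one] at h13
        omega
      rw [Finset.sum_congr rfl h11, Finset.sum_add_distrib, Finset.sum_const, Finset.card_range,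
        smul_eq_mul, mul_comm, Finset.sum_range_succ, Nat.sub_self, add_zero]
    rw [h10]
    exact add_le_add h9 h4

end

theorem exists_mon_basis {σ κ : Type*} [Fintype σ] [DecidableEq σ] [Field κ]
    (I : Ideal (MvPolynomial σ κ)) (D : ℕ) :
    ∃ μ : Fin (hP I D) → (σ →₀ ℕ), (∀ i, (μ i).degree ≤ D) ∧
      LinearIndependent κ (fun i => Ideal.Quotient.mk I (monomial (μ i) (1 : κ))) ∧
      ∑ i, (μ i).degree ≤ ∑ j ∈ Finset.range D, (hP I D - hP I j) := by
  obtain ⟨T, h1, h2, h3, h4⟩ := exists_T I D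
  refine ⟨fun i => ((T.equivFinOfCardEq h3).symm i).1, fun i => h1 _ (Subtype.prop _), ?_, ?_⟩
  · exact LinearIndependent.comp h2 (T.equivFinOfCardEq h3).symm
      (T.equivFinOfCardEq h3).symm.injective
  · rw [Equiv.sum_comp (T.equivFinOfCardEq h3).symm (fun x : T => (x.1).degree),
      Finset.sum_coe_sort T (fun α => α.degree)]
    exact h4

end Pool.Agent.H37.DTA
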