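import Pool.Agent.H37.DTA.FrDefs

/-! MODULE Pts (about 90 lines). Points with nonzero determinant; size of the determinant.

`exists_points`: the vectors `v z = fun i => f i z`, `z : Z`, span `Fin s → K`: otherwise there is a nonzero linear functional, i.e. a vector `c ≠ 0` with `∑ c i * f i z = 0` for all `z` (`Submodule.exists_le_ker_of_lt_top`). Choose a basis inside the spanning set (`exists_linearIndependent K (Set.range v)`), it has `s` elements
(`Module.finrank_fin_fun`); determinant of a matrix with linearly independent rows/columns (`Matrix.linearIndependent_rows_iff_isUnit`, `Matrix.isUnit_iff_isUnit_det`).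
`abs_det_le`: `Matrix.det_apply`, triangle inequality, `∏ |M (τ i) i| ≤ ∏ B ^ e ..`, `s!` permutations (`Fintype.card_perm`). `abs_mon_le`: `|∏ z_i^(μ_i)| ≤ B^(∑ μ_i)`. -/

set_option autoImplicit false

namespace Pool.Agent.H37.DTA

open MvPolynomial

theorem exists_points {K Z : Type*} [Field K] {s : ℕ} (f : Fin s → Z → K)
    (h : ∀ c : Fin s → K, c ≠ 0 → ∃ z, ∑ i, c i * f i z ≠ 0) :
    ∃ z : Fin s → Z, (Matrix.of fun i l => f i (z l)).det ≠ 0 := by
  classical
  let v : Z → (Fin s → K) := fun z i => f i z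
  have hspan : Submodule.span K (Set.range v) = ⊤ := by
    by_contra hne
    obtain ⟨φ, hφ0, hφ⟩ := Submodule.exists_le_ker_of_lt_top _ (lt_top_iff_ne_top.2 hne)
    let c : Fin s → K := fun i => φ (Pi.single i 1)
    have hφc : ∀ w : Fin s → K, φ w = ∑ i, c i * w i := by
      intro w
      conv_lhs => rw [← Finset.univ_sum_single w]
      rw [map_sum]
      refine Finset.sum_congr rfl fun i _ => ?_
      have : (Pi.single i (w i) : Fin s → K) = w i • Pi.single i (1 : K) := by
        rw [← Pi.single_smul]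
        simp
      rw [this, map_smul, smul_eq_mul, mul_comm]
    have hc : c ≠ 0 := by
      intro hc
      apply hφ0
      ext w
      rw [LinearMap.coe_comp, Function.comp_apply, hφc]
      simp [hc]
    obtain ⟨z, hz⟩ := h c hc
    apply hz
    have h1 : v z ∈ LinearMap.ker φ := hφ (Submodule.subset_span ⟨z, rfl⟩)
    rw [LinearMap.mem_ker, hφc] at h1
    exact h1
  obtain ⟨b, hb1, hb2, hb3⟩ := exists_linearIndependent K (Set.range v)
  rw [hspan] at hb2
  let B : Module.Basis b K (Fin s → K) := Module.Basis.mk hb3 (by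
    rw [Subtype.range_coe, hb2])
  have hfin : Finite b := Module.Finite.finite_basis B
  let _ : Fintype b := Fintype.ofFinite b
  have hcard : Fintype.card b = s := by
    rw [← Module.finrank_eq_card_basis B, Module.finrank_fin_fun]
  let e : Fin s ≃ b := (Fintype.equivFinOfCardEq hcard).symm
  have hz : ∀ l, ∃ z, v z = (e l : Fin s → K) := fun l => hb1 (e l).2
  choose z hz using hz
  refine ⟨z, ?_⟩
  have hli : LinearIndependent K (fun l => v (z l)) := by
    have h1 : LinearIndependent K (fun l : Fin s => ((e l : b) : Fin s → K)) :=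
      hb3.comp e e.injective
    have h2 : (fun l => v (z l)) = fun l : Fin s => ((e l : b) : Fin s → K) := funext hz
    rw [h2]
    exact h1
  let A : Matrix (Fin s) (Fin s) K := Matrix.of fun l i => f i (z l)
  have hA : IsUnit A := by
    rw [← Matrix.linearIndependent_rows_iff_isUnit]
    exact hli
  have hdet : A.det ≠ 0 := ((Matrix.isUnit_iff_isUnit_det A).1 hA).ne_zero
  have ht : (Matrix.of fun i l => f i (z l)) = A.transpose := rfl
  rw [ht, Matrix.det_transpose]
  exact hdet

theorem abs_det_le {s : ℕ} (M : Matrix (Fin s) (Fin s) ℤ) (B : ℕ) (e : Fin s → ℕ)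
    (h : ∀ i l, |M i l| ≤ (B : ℤ) ^ e i) :
    |M.det| ≤ (Nat.factorial s : ℤ) * (B : ℤ) ^ (∑ i, e i) := by
  rw [Matrix.det_apply]
  refine (Finset.abs_sum_le_sum_abs _ _).trans ?_
  have h1 : ∀ τ ∈ (Finset.univ : Finset (Equiv.Perm (Fin s))),
      |Equiv.Perm.sign τ • ∏ i, M (τ i) i| ≤ (B : ℤ) ^ (∑ i, e i) := by
    intro τ _
    have h2 : |Equiv.Perm.sign τ • ∏ i, M (τ i) i| = ∏ i, |M (τ i) i| := by
      rw [← Finset.abs_prod]
      rcases Int.units_eq_one_or (Equiv.Perm.sign τ) with hs | hs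
      · rw [hs, one_smul]
      · rw [hs, Units.neg_smul, one_smul, abs_neg]
    rw [h2]
    calc ∏ i, |M (τ i) i| ≤ ∏ i, (B : ℤ) ^ e (τ i) :=
          Finset.prod_le_prod (fun i _ => abs_nonneg _) fun i _ => h _ _
      _ = (B : ℤ) ^ (∑ i, e (τ i)) := Finset.prod_pow_eq_pow_sum _ _ _
      _ = (B : ℤ) ^ (∑ i, e i) := by rw [Equiv.sum_comp τ e]
  refine (Finset.sum_le_sum h1).trans ?_
  rw [Finset.sum_const, Finset.card_univ, Fintype.card_perm, Fintype.card_fin, nsmul_eq_mul]

theorem abs_mon_le {σ : Type*} [Fintype σ] (z : σ → ℤ) (B : ℕ) (h : ∀ i, |z i| ≤ (B : ℤ))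
    (μ : σ →₀ ℕ) : |eval z (monomial μ (1 : ℤ))| ≤ (B : ℤ) ^ μ.degree := by
  rw [eval_monomial, one_mul, Finsupp.prod, Finset.abs_prod, Finsupp.degree]
  simp_rw [abs_pow]
  calc ∏ i ∈ μ.support, |z i| ^ μ i ≤ ∏ i ∈ μ.support, (B : ℤ) ^ μ i :=
        Finset.prod_le_prod (fun i _ => pow_nonneg (abs_nonneg _) _)
          fun i _ => pow_le_pow_left₀ (abs_nonneg _) (h i) _
    _ = (B : ℤ) ^ (∑ i ∈ μ.support, μ i) := Finset.prod_pow_eq_pow_sum _ _ _

end Pool.Agent.H37.DTA
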