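import Mathlib

/-! MODULE RealI (about 200 lines). The real inequality.

Assume `∑ β i > K`, i.e. `(∑ β i) / K > 1`. Let `η > 0` be small. There is `C` with `h j ≥ (1 - η) c j^m - C` for all `j` and, for every `i`, `L i k ≤ (1 + η) K^m c k^m + C` for all `k` (finitely many exceptions; `K^m c > 0`). Take `D` large with `h D ≤ (1 + η) c D^m` (frequently), also `h D ≥ (1 - η) c D^m`; put `s = h D`.
RIGHT SIDE: `∑_(j<D) (h D - h j) ≤ D (1+η) c D^m - (1-η) c ∑_(j<D) j^m + C D`, `∑_(j<D) j^m ≥ D^(m+1)/(m+1) - D^m` (compare with the integral, or `∑_(j<D) j^m ≥ ∑ (j^(m+1) - (j-1)^(m+1))/(m+1)` because `j^(m+1) - (j-1)^(m+1) ≤ (m+1) j^m`; so `∑_(j<D) j^m ≥ (D-1)^(m+1)/(m+1)`). So the right side is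
`≤ c D^(m+1) (m/(m+1) + 2 η + o(1))`.
LEFT SIDE: with `κ = (1+η) K^m c` and `k1 = ⌊(s/κ)^(1/m)⌋`: `∑_(k<k1) (s - L(k+1)) ≥ k1 s - κ ∑_(k=1..k1) k^m - C k1` and `∑_(k=1..k1) k^m ≤ (k1+1)^(m+1)/(m+1)` (because `(m+1) k^m ≤ (k+1)^(m+1) - k^(m+1)`), `κ k1^m ≤ s`. With `s ≥ (1-η) c D^m`: `k1 ~ (s/κ)^(1/m) ≥ ((1-η)/(1+η))^(1/m) D / K`, and the left side
of `hfin` is `≥ (∑ β i) (m/(m+1)) s (s/κ)^(1/m) (1 - o(1)) ≥ (∑ β i / K) (m/(m+1)) c D^(m+1) (1-η)^(1+1/m) (1+η)^(-1/m) (1 - o(1))`. For `η` small and `D` large this contradicts `(∑ β i)/K > 1`.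
(Convenient way, no real powers: put simply `k1 = ⌊D / K⌋`; the truncated subtraction is at least the real difference, so `∑_(k<k1) (s - L(k+1)) ≥ k1 (1-η) c D^m - (1+η) K^m c (k1+1)^(m+1)/(m+1) - C k1 ≥ (c/K) D^(m+1) ((1-η) - (1+η)/(m+1) - o(1))`, and `(1-η) - (1+η)/(m+1) → m/(m+1)`
as `η → 0`. Compare with the right side `c D^(m+1) (m/(m+1) + 2 η + o(1))`, divide by `D^(m+1)`, let `D → ∞` along the frequent set, then `η → 0`.) -/

set_option autoImplicit false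

namespace Pool.Agent.H37.DTA

open Filter

theorem eventually_const (f g : ℕ → ℝ) (h : ∀ᶠ k in atTop, f k ≤ g k) :
    ∃ C : ℝ, 0 ≤ C ∧ ∀ k, f k ≤ g k + C := by
  obtain ⟨k0, hk0⟩ := eventually_atTop.1 h
  refine ⟨∑ k ∈ Finset.range k0, |f k - g k|, Finset.sum_nonneg fun _ _ => abs_nonneg _, ?_⟩
  intro k
  by_cases hk : k0 ≤ k
  · have := hk0 k hk
    have h2 : 0 ≤ ∑ k ∈ Finset.range k0, |f k - g k| :=
      Finset.sum_nonneg fun _ _ => abs_nonneg _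
    linarith
  · have h1 : |f k - g k| ≤ ∑ k ∈ Finset.range k0, |f k - g k| :=
      Finset.single_le_sum (f := fun k => |f k - g k|) (fun _ _ => abs_nonneg _)
        (Finset.mem_range.2 (not_le.1 hk))
    have h2 := le_abs_self (f k - g k)
    linarith

theorem pow_diff_le (m : ℕ) (x : ℝ) (hx : 0 ≤ x) :
    (x + 1) ^ (m + 1) - x ^ (m + 1) ≤ ((m : ℝ) + 1) * (x + 1) ^ m := by
  induction m with
  | zero => simp
  | succ m ih =>
    have h1 : x ^ (m + 1) ≤ (x + 1) ^ (m + 1) := pow_le_pow_left₀ hx (by linarith) _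
    have h2 : (x + 1) ^ (m + 1 + 1) - x ^ (m + 1 + 1) =
        (x + 1) * ((x + 1) ^ (m + 1) - x ^ (m + 1)) + x ^ (m + 1) := by ring
    have h3 : (x + 1) * ((x + 1) ^ (m + 1) - x ^ (m + 1)) ≤
        (x + 1) * (((m : ℝ) + 1) * (x + 1) ^ m) :=
      mul_le_mul_of_nonneg_left ih (by linarith)
    push_cast
    calc (x + 1) ^ (m + 1 + 1) - x ^ (m + 1 + 1)
        = (x + 1) * ((x + 1) ^ (m + 1) - x ^ (m + 1)) + x ^ (m + 1) := h2
      _ ≤ (x + 1) * (((m : ℝ) + 1) * (x + 1) ^ m) + (x + 1) ^ (m + 1) := by linarith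
      _ = ((m : ℝ) + 1 + 1) * (x + 1) ^ (m + 1) := by ring

theorem pow_diff_ge (m : ℕ) (x : ℝ) (hx : 0 ≤ x) :
    ((m : ℝ) + 1) * x ^ m ≤ (x + 1) ^ (m + 1) - x ^ (m + 1) := by
  induction m with
  | zero => simp
  | succ m ih =>
    have h2 : (x + 1) ^ (m + 1 + 1) - x ^ (m + 1 + 1) =
        x * ((x + 1) ^ (m + 1) - x ^ (m + 1)) + (x + 1) ^ (m + 1) := by ring
    have h3 : x * (((m : ℝ) + 1) * x ^ m) ≤ x * ((x + 1) ^ (m + 1) - x ^ (m + 1)) :=
      mul_le_mul_of_nonneg_left ih hx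
    have h1 : x ^ (m + 1) ≤ (x + 1) ^ (m + 1) := pow_le_pow_left₀ hx (by linarith) _
    push_cast
    calc ((m : ℝ) + 1 + 1) * x ^ (m + 1) = x * (((m : ℝ) + 1) * x ^ m) + x ^ (m + 1) := by ring
      _ ≤ x * ((x + 1) ^ (m + 1) - x ^ (m + 1)) + (x + 1) ^ (m + 1) := by linarith
      _ = (x + 1) ^ (m + 1 + 1) - x ^ (m + 1 + 1) := h2.symm

theorem sum_succ_pow_ge (m D : ℕ) :
    (D : ℝ) ^ (m + 1) ≤ ((m : ℝ) + 1) * ∑ j ∈ Finset.range D, ((j : ℝ) + 1) ^ m := by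
  induction D with
  | zero => simp
  | succ D ih =>
    rw [Finset.sum_range_succ, mul_add]
    have := pow_diff_le m (D : ℝ) (Nat.cast_nonneg _)
    push_cast
    linarith

theorem sum_succ_pow_le (m D : ℕ) :
    ((m : ℝ) + 1) * ∑ j ∈ Finset.range D, ((j : ℝ) + 1) ^ m ≤ ((D : ℝ) + 1) ^ (m + 1) := by
  induction D with
  | zero => simp
  | succ D ih =>
    rw [Finset.sum_range_succ, mul_add]
    have := pow_diff_ge m ((D : ℝ) + 1) (by positivity)
    push_cast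
    linarith

theorem sum_pow_ge (m D : ℕ) :
    (D : ℝ) ^ (m + 1) - ((m : ℝ) + 1) * (D : ℝ) ^ m ≤
      ((m : ℝ) + 1) * ∑ j ∈ Finset.range D, (j : ℝ) ^ m := by
  have h1 := sum_succ_pow_ge m D
  have h2 : ∑ j ∈ Finset.range D, ((j : ℝ) + 1) ^ m + (0 : ℝ) ^ m =
      ∑ j ∈ Finset.range D, (j : ℝ) ^ m + (D : ℝ) ^ m := by
    rw [← Finset.sum_range_succ (fun j : ℕ => (j : ℝ) ^ m), Finset.sum_range_succ']
    push_cast
    simp
  have h3 : (0 : ℝ) ≤ (0 : ℝ) ^ m := by positivity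
  have hm : (0 : ℝ) ≤ (m : ℝ) + 1 := by positivity
  have h4 : ∑ j ∈ Finset.range D, ((j : ℝ) + 1) ^ m ≤
      ∑ j ∈ Finset.range D, (j : ℝ) ^ m + (D : ℝ) ^ m := by linarith
  have h5 := mul_le_mul_of_nonneg_left h4 hm
  linarith

/-- `s - L` is the truncated subtraction of natural numbers -/
theorem real_ineq (m : ℕ) (hm : 1 ≤ m) (c K : ℝ) (hc : 0 < c) (hK : 0 < K) (h : ℕ → ℕ)
    (hmono : Monotone h)
    (hlow : ∀ ε : ℝ, 0 < ε → ∀ᶠ D : ℕ in atTop, (c - ε) * (D : ℝ) ^ m ≤ (h D : ℝ))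
    (hup : ∀ ε : ℝ, 0 < ε → ∃ᶠ D : ℕ in atTop, (h D : ℝ) ≤ (c + ε) * (D : ℝ) ^ m)
    {t : ℕ} (β : Fin t → ℝ) (hβ : ∀ i, 0 ≤ β i) (L : Fin t → ℕ → ℕ)
    (hL : ∀ i, ∀ ε : ℝ, 0 < ε → ∀ᶠ k : ℕ in atTop, (L i k : ℝ) ≤ (K ^ m * c + ε) * (k : ℝ) ^ m)
    (hfin : ∀ D k1 : ℕ, ∑ i, β i * ((∑ k ∈ Finset.range k1, (h D - L i (k + 1)) : ℕ) : ℝ) ≤
      ((∑ j ∈ Finset.range D, (h D - h j) : ℕ) : ℝ)) :
    ∑ i, β i ≤ K := by
  set S : ℝ := ∑ i, β i with hS
  have hS0 : 0 ≤ S := Finset.sum_nonneg fun i _ => hβ i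
  have hm1 : (0 : ℝ) < (m : ℝ) + 1 := by positivity
  -- the inequality for fixed `ε`
  have key : ∀ ε : ℝ, 0 < ε → ε < c →
      S * ((c - ε) / K - (K ^ m * c + ε) / (K ^ (m + 1) * ((m : ℝ) + 1))) ≤
        (c + ε) - (c - ε) / ((m : ℝ) + 1) := by
    intro ε hε hεc
    obtain ⟨C1, hC1, hh⟩ := eventually_const (fun j : ℕ => (c - ε) * (j : ℝ) ^ m)
      (fun j => (h j : ℝ)) (hlow ε hε)
    have hL' : ∃ C : ℝ, 0 ≤ C ∧ ∀ i k, (L i k : ℝ) ≤ (K ^ m * c + ε) * (k : ℝ) ^ m + C := by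
      choose C hC0 hC using fun i => eventually_const (fun k : ℕ => (L i k : ℝ))
        (fun k => (K ^ m * c + ε) * (k : ℝ) ^ m) (hL i ε hε)
      refine ⟨∑ i, C i, Finset.sum_nonneg fun i _ => hC0 i, fun i k => ?_⟩
      have h1 : C i ≤ ∑ i, C i :=
        Finset.single_le_sum (f := C) (fun j _ => hC0 j) (Finset.mem_univ i)
      have h2 := hC i k
      linarith
    obtain ⟨C2, hC2, hL2⟩ := hL'
    have hfreq : ∃ᶠ D : ℕ in atTop,
        S * ((1 / K - 1 / (D : ℝ)) * (c - ε) -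
            (K ^ m * c + ε) * (1 / K + 1 / (D : ℝ)) ^ (m + 1) / ((m : ℝ) + 1) -
            C2 * (1 / (D : ℝ)) ^ m / K) -
          ((c + ε) - (c - ε) * (1 / ((m : ℝ) + 1) - 1 / (D : ℝ)) + C1 * (1 / (D : ℝ)) ^ m) ≤
          0 := by
      refine ((hup ε hε).and_eventually ((hlow ε hε).and (eventually_gt_atTop 0))).mono ?_
      rintro D ⟨hD1, hD2, hD0⟩
      have hDr : (0 : ℝ) < (D : ℝ) := by exact_mod_cast hD0
      -- right side
      have hR : ((∑ j ∈ Finset.range D, (h D - h j) : ℕ) : ℝ) ≤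
          (c + ε) * (D : ℝ) ^ (m + 1) -
            (c - ε) * ((D : ℝ) ^ (m + 1) / ((m : ℝ) + 1) - (D : ℝ) ^ m) + C1 * (D : ℝ) := by
        have e1 : ((∑ j ∈ Finset.range D, (h D - h j) : ℕ) : ℝ) =
            ∑ j ∈ Finset.range D, ((h D : ℝ) - (h j : ℝ)) := by
          rw [Nat.cast_sum]
          refine Finset.sum_congr rfl fun j hj => ?_
          rw [Nat.cast_sub (hmono (le_of_lt (Finset.mem_range.1 hj)))]
        have e2 : ∑ j ∈ Finset.range D, ((h D : ℝ) - (h j : ℝ)) ≤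
            ∑ j ∈ Finset.range D, ((c + ε) * (D : ℝ) ^ m - (c - ε) * (j : ℝ) ^ m + C1) := by
          refine Finset.sum_le_sum fun j _ => ?_
          have := hh j
          linarith
        have e3 : ∑ j ∈ Finset.range D, ((c + ε) * (D : ℝ) ^ m - (c - ε) * (j : ℝ) ^ m + C1) =
            (c + ε) * (D : ℝ) ^ (m + 1) - (c - ε) * ∑ j ∈ Finset.range D, (j : ℝ) ^ m +
              C1 * (D : ℝ) := by
          rw [Finset.sum_add_distrib, Finset.sum_sub_distrib, Finset.mul_sum]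
          simp only [Finset.sum_const, Finset.card_range, nsmul_eq_mul]
          ring
        have e4 : (D : ℝ) ^ (m + 1) / ((m : ℝ) + 1) - (D : ℝ) ^ m ≤
            ∑ j ∈ Finset.range D, (j : ℝ) ^ m := by
          have := sum_pow_ge m D
          rw [sub_le_iff_le_add, div_le_iff₀ hm1]
          linarith
        have e5 := mul_le_mul_of_nonneg_left e4 (sub_nonneg.2 hεc.le)
        linarith
      -- left side
      set k1 : ℕ := ⌊(D : ℝ) / K⌋₊ with hk1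
      have hk1u : (k1 : ℝ) ≤ (D : ℝ) / K := Nat.floor_le (by positivity)
      have hk1l : (D : ℝ) / K - 1 ≤ (k1 : ℝ) := by
        have := Nat.lt_floor_add_one ((D : ℝ) / K)
        linarith
      have hA : 0 ≤ K ^ m * c + ε := by positivity
      set T : ℝ := ((D : ℝ) / K - 1) * ((c - ε) * (D : ℝ) ^ m) -
          (K ^ m * c + ε) * (((D : ℝ) / K + 1) ^ (m + 1) / ((m : ℝ) + 1)) -
            C2 * ((D : ℝ) / K) with hT
      have hLi : ∀ i, T ≤ ((∑ k ∈ Finset.range k1, (h D - L i (k + 1)) : ℕ) : ℝ) := by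
        intro i
        have e1 : ∑ k ∈ Finset.range k1, ((c - ε) * (D : ℝ) ^ m -
            (K ^ m * c + ε) * ((k : ℝ) + 1) ^ m - C2) ≤
            ((∑ k ∈ Finset.range k1, (h D - L i (k + 1)) : ℕ) : ℝ) := by
          rw [Nat.cast_sum]
          refine Finset.sum_le_sum fun k _ => ?_
          have e2 : (h D : ℝ) - (L i (k + 1) : ℝ) ≤ ((h D - L i (k + 1) : ℕ) : ℝ) := by
            rw [sub_le_iff_le_add]
            exact_mod_cast (by omega : h D ≤ h D - L i (k + 1) + L i (k + 1))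
          have e3 := hL2 i (k + 1)
          push_cast at e3
          linarith
        have e4 : ∑ k ∈ Finset.range k1, ((c - ε) * (D : ℝ) ^ m -
            (K ^ m * c + ε) * ((k : ℝ) + 1) ^ m - C2) =
            (k1 : ℝ) * ((c - ε) * (D : ℝ) ^ m) -
              (K ^ m * c + ε) * ∑ k ∈ Finset.range k1, ((k : ℝ) + 1) ^ m - C2 * (k1 : ℝ) := by
          rw [Finset.sum_sub_distrib, Finset.sum_sub_distrib, Finset.mul_sum]
          simp only [Finset.sum_const, Finset.card_range, nsmul_eq_mul]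
          ring
        have e5 : ∑ k ∈ Finset.range k1, ((k : ℝ) + 1) ^ m ≤
            ((D : ℝ) / K + 1) ^ (m + 1) / ((m : ℝ) + 1) := by
          rw [le_div_iff₀ hm1, mul_comm]
          refine (sum_succ_pow_le m k1).trans ?_
          exact pow_le_pow_left₀ (by positivity) (by linarith) _
        have e6 := mul_le_mul_of_nonneg_left e5 hA
        have e7 : ((D : ℝ) / K - 1) * ((c - ε) * (D : ℝ) ^ m) ≤
            (k1 : ℝ) * ((c - ε) * (D : ℝ) ^ m) :=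
          mul_le_mul_of_nonneg_right hk1l (mul_nonneg (sub_nonneg.2 hεc.le) (by positivity))
        have e8 : C2 * (k1 : ℝ) ≤ C2 * ((D : ℝ) / K) := mul_le_mul_of_nonneg_left hk1u hC2
        rw [hT]
        linarith
      have hST : S * T ≤ ((∑ j ∈ Finset.range D, (h D - h j) : ℕ) : ℝ) := by
        refine le_trans ?_ (hfin D k1)
        rw [hS, Finset.sum_mul]
        exact Finset.sum_le_sum fun i _ => mul_le_mul_of_nonneg_left (hLi i) (hβ i)
      have hfinal := hST.trans hR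
      have hpos : (0 : ℝ) < (D : ℝ) ^ (m + 1) := by positivity
      have f1 : S * T = (S * ((1 / K - 1 / (D : ℝ)) * (c - ε) -
            (K ^ m * c + ε) * (1 / K + 1 / (D : ℝ)) ^ (m + 1) / ((m : ℝ) + 1) -
            C2 * (1 / (D : ℝ)) ^ m / K)) * (D : ℝ) ^ (m + 1) := by
        have g1 : ((D : ℝ) / K + 1) ^ (m + 1) =
            (1 / K + 1 / (D : ℝ)) ^ (m + 1) * (D : ℝ) ^ (m + 1) := by
          rw [← mul_pow]
          congr 1
          field_simp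
        have g2 : (1 / (D : ℝ)) ^ m * (D : ℝ) ^ (m + 1) = (D : ℝ) := by
          rw [pow_succ, ← mul_assoc, ← mul_pow, one_div, inv_mul_cancel₀ hDr.ne', one_pow, one_mul]
        have g3 : ((D : ℝ) / K - 1) * (D : ℝ) ^ m = (1 / K - 1 / (D : ℝ)) * (D : ℝ) ^ (m + 1) := by
          rw [pow_succ]
          field_simp
        rw [hT, g1]
        have : ((D : ℝ) / K - 1) * ((c - ε) * (D : ℝ) ^ m) =
            (1 / K - 1 / (D : ℝ)) * (D : ℝ) ^ (m + 1) * (c - ε) := by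
          rw [← g3]; ring
        rw [this]
        have g4 : C2 * ((D : ℝ) / K) = C2 * ((1 / (D : ℝ)) ^ m * (D : ℝ) ^ (m + 1)) / K := by
          rw [g2]; ring
        rw [g4]
        ring
      have f2 : (c + ε) * (D : ℝ) ^ (m + 1) -
            (c - ε) * ((D : ℝ) ^ (m + 1) / ((m : ℝ) + 1) - (D : ℝ) ^ m) + C1 * (D : ℝ) =
          ((c + ε) - (c - ε) * (1 / ((m : ℝ) + 1) - 1 / (D : ℝ)) + C1 * (1 / (D : ℝ)) ^ m) *
            (D : ℝ) ^ (m + 1) := by
        have g2 : (1 / (D : ℝ)) ^ m * (D : ℝ) ^ (m + 1) = (D : ℝ) := by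
          rw [pow_succ, ← mul_assoc, ← mul_pow, one_div, inv_mul_cancel₀ hDr.ne', one_pow, one_mul]
        have g3 : (D : ℝ) ^ m = 1 / (D : ℝ) * (D : ℝ) ^ (m + 1) := by
          rw [pow_succ]
          field_simp
        have g4 : C1 * (D : ℝ) = C1 * ((1 / (D : ℝ)) ^ m * (D : ℝ) ^ (m + 1)) := by rw [g2]
        rw [g4]
        conv_lhs => rw [g3]
        ring
      rw [f1, f2] at hfinal
      have := le_of_mul_le_mul_right hfinal hpos
      linarith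
    -- the limit
    have hx : Tendsto (fun D : ℕ => 1 / (D : ℝ)) atTop (nhds 0) := tendsto_one_div_atTop_nhds_zero_nat
    have hxm : Tendsto (fun D : ℕ => (1 / (D : ℝ)) ^ m) atTop (nhds 0) := by
      have := hx.pow m
      rwa [zero_pow (by omega)] at this
    have hlim : Tendsto (fun D : ℕ =>
        S * ((1 / K - 1 / (D : ℝ)) * (c - ε) -
            (K ^ m * c + ε) * (1 / K + 1 / (D : ℝ)) ^ (m + 1) / ((m : ℝ) + 1) -
            C2 * (1 / (D : ℝ)) ^ m / K) -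
          ((c + ε) - (c - ε) * (1 / ((m : ℝ) + 1) - 1 / (D : ℝ)) + C1 * (1 / (D : ℝ)) ^ m)) atTop
        (nhds (S * ((1 / K - 0) * (c - ε) -
            (K ^ m * c + ε) * (1 / K + 0) ^ (m + 1) / ((m : ℝ) + 1) -
            C2 * 0 / K) -
          ((c + ε) - (c - ε) * (1 / ((m : ℝ) + 1) - 0) + C1 * 0))) := by
      refine Tendsto.sub (Tendsto.const_mul _ (Tendsto.sub (Tendsto.sub ?_ ?_) ?_))
        (Tendsto.add (Tendsto.sub tendsto_const_nhds ?_) ?_)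
      · exact (tendsto_const_nhds.sub hx).mul_const _
      · exact (((tendsto_const_nhds.add hx).pow (m + 1)).const_mul _).div_const _
      · exact (hxm.const_mul _).div_const _
      · exact (tendsto_const_nhds.sub hx).const_mul _
      · exact hxm.const_mul _
    have hle := le_of_tendsto_of_frequently hlim hfreq
    have h1 : (K ^ m * c + ε) / (K ^ (m + 1) * ((m : ℝ) + 1)) =
        (K ^ m * c + ε) * (1 / K + 0) ^ (m + 1) / ((m : ℝ) + 1) := by
      rw [add_zero, one_div, inv_pow]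
      field_simp
    rw [h1]
    have h2 : (c - ε) / K = (1 / K - 0) * (c - ε) := by ring
    have h3 : (c - ε) / ((m : ℝ) + 1) = (c - ε) * (1 / ((m : ℝ) + 1) - 0) := by ring
    rw [h2, h3]
    have h4 : C2 * 0 / K = 0 := by simp
    rw [h4] at hle
    linarith
  -- let `ε → 0`
  have hlim1 : Tendsto (fun ε : ℝ => S * ((c - ε) / K -
      (K ^ m * c + ε) / (K ^ (m + 1) * ((m : ℝ) + 1)))) (nhdsWithin 0 (Set.Ioi 0))
      (nhds (S * ((c - 0) / K - (K ^ m * c + 0) / (K ^ (m + 1) * ((m : ℝ) + 1))))) := by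
    have hid : Tendsto (fun ε : ℝ => ε) (nhdsWithin 0 (Set.Ioi 0)) (nhds 0) :=
      tendsto_id.mono_left nhdsWithin_le_nhds
    exact (((tendsto_const_nhds.sub hid).div_const _).sub
      ((tendsto_const_nhds.add hid).div_const _)).const_mul _
  have hlim2 : Tendsto (fun ε : ℝ => (c + ε) - (c - ε) / ((m : ℝ) + 1))
      (nhdsWithin 0 (Set.Ioi 0)) (nhds ((c + 0) - (c - 0) / ((m : ℝ) + 1))) := by
    have hid : Tendsto (fun ε : ℝ => ε) (nhdsWithin 0 (Set.Ioi 0)) (nhds 0) :=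
      tendsto_id.mono_left nhdsWithin_le_nhds
    exact (tendsto_const_nhds.add hid).sub ((tendsto_const_nhds.sub hid).div_const _)
  have hev : ∀ᶠ ε : ℝ in nhdsWithin 0 (Set.Ioi 0), S * ((c - ε) / K -
      (K ^ m * c + ε) / (K ^ (m + 1) * ((m : ℝ) + 1))) ≤ (c + ε) - (c - ε) / ((m : ℝ) + 1) := by
    filter_upwards [self_mem_nhdsWithin, mem_nhdsWithin_of_mem_nhds (Iio_mem_nhds hc)]
      with ε h1 h2 using key ε h1 h2
  have hfin2 := le_of_tendsto_of_tendsto hlim1 hlim2 hev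
  have e1 : (c - 0) / K - (K ^ m * c + 0) / (K ^ (m + 1) * ((m : ℝ) + 1)) =
      (c * ((m : ℝ) / ((m : ℝ) + 1))) / K := by
    rw [pow_succ]
    field_simp
    ring
  have e2 : (c + 0) - (c - 0) / ((m : ℝ) + 1) = c * ((m : ℝ) / ((m : ℝ) + 1)) := by
    field_simp
    ring
  rw [e1, e2] at hfin2
  have hmpos : (0 : ℝ) < (m : ℝ) := by exact_mod_cast hm
  have hq : (0 : ℝ) < c * ((m : ℝ) / ((m : ℝ) + 1)) := by positivity
  rw [mul_div_assoc', div_le_iff₀ hK, mul_comm S] at hfin2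
  exact le_of_mul_le_mul_left hfin2 hq

/-- growth: `B^x ≤ C B^y` for unbounded `B` gives `x ≤ y` -/
theorem exp_le {U : Filter ℕ} [U.NeBot] (B : ℕ → ℕ) (hB : Tendsto B U atTop) (C x y : ℝ)
    (h : ∀ᶠ j in U, ((B j : ℕ) : ℝ) ^ x ≤ C * ((B j : ℕ) : ℝ) ^ y) : x ≤ y := by
  by_contra hxy
  have hxy' : 0 < x - y := by linarith [not_le.1 hxy]
  have hBr : Tendsto (fun j => ((B j : ℕ) : ℝ)) U atTop :=
    tendsto_natCast_atTop_atTop.comp hB
  have h1 : Tendsto (fun j => ((B j : ℕ) : ℝ) ^ (x - y)) U atTop :=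
    (tendsto_rpow_atTop hxy').comp hBr
  have h2 : ∀ᶠ j in U, C < ((B j : ℕ) : ℝ) ^ (x - y) := h1.eventually_gt_atTop C
  have h3 : ∀ᶠ j in U, (0 : ℝ) < ((B j : ℕ) : ℝ) := hBr.eventually_gt_atTop 0
  obtain ⟨j, hj, hj2, hj3⟩ := (h.and (h2.and h3)).exists
  rw [Real.rpow_sub hj3, lt_div_iff₀ (Real.rpow_pos_of_pos hj3 y)] at hj2
  linarith

end Pool.Agent.H37.DTA
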