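import Pool.Agent.H37.DTA.DetAlg
import Pool.Agent.H37.DTA.Pts
import Pool.Agent.H37.DTA.MonB
import Pool.Agent.H37.DTA.GermL
import Pool.Agent.H37.DTA.RealI

/-! MODULE DetLem. The determinant lemma (helper62's `det_lemma`, with the liminf `c` given); the first version, in the frame of `H19/N64`, is by helper40.

By contradiction: assume that no `F ∉ P` vanishes on `S`. Let `K0 = ρ ^ (1/m)` (real power), `K0 ^ m = ρ`, `0 < K0`; we show `∑ β ≤ K0` by `real_ineq` (`h = hF P`, `t = L.length`, `β i = (L.get i).β`, `L i n = lF (redI φ ψ_i P) (ptS ψ_i ξ_i) n`, `ψ_i` from `hloc`; the bound `hL` of `real_ineq` is `UppB .. (ρ * c)`), so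
`(∑ β) ^ m ≤ ρ`, contradiction. It remains to prove `hfin`. Fix `D`, `k1`; `s = hF P D` (`hP` and `hF`, `Lk` and `lF`, `mxi` and `mI` are the same by `rfl`), `μ` from `exists_mon_basis P D`. Apply `exists_points` to `Z = {z : ℕ → σ → ℤ // ∀ᶠ j in U, z j ∈ S j}`, `f i z = eval (ptS φ z) (monomial (μ i) 1)`: for `e ≠ 0` the polynomial
`F = ∑ C (e i) * monomial (μ i) 1` is not in `P` by linear independence, so it does not vanish at some `z ∈ Z`. Get `z : Fin s → Z` with nonzero determinant in `K`; it is the image under `φ'` (`exists_liftK`) of `Δ = det (eval (gg U (z l)) (monomial (μ i) 1))`, the germ of `Δ j = det (eval (z l j) (monomial (μ i) 1))` (`det_zg`, `eval_mon_zg`), so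
`Δ j ≠ 0` for almost all `j`. `det_alg` (`A = ZG U`, `π = pg U (p i)`, `q` from `exists_liftP`, `PA = P.comap (map φ')` (`PA_eval`), `ξ = gg U ξ_i`, `hξ` from `cls` and `dvd_iff` with `n = 1`; `redI_eq`) gives `pg U (p i) ^ V i ∣ Δ`, `V i = ∑_(k<k1) (s - L i (k+1))`; `dvd_iff`: for almost all `j`, `p i j ^ V i ∣ Δ j`; the `p i j` are
different primes: `∏ i, p i j ^ V i ∣ Δ j` (`Finset.prod_dvd_of_coprime`), so `∏ i, p i j ^ V i ≤ |Δ j| ≤ s! * B j ^ (∑ (μ i).degree)` (`abs_det_le`, `abs_mon_le`, `InBox`), and `B j ^ (∑ β i V i) ≤ ∏ (p i j)^(V i)`. `exp_le` gives `∑ β i V i ≤ ∑ (μ i).degree ≤ ∑_(j<D) (h D - h j)`. -/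

set_option autoImplicit false

namespace Pool.Agent.H37.DTA

open MvPolynomial Filter Pool.Agent.H62.N6

/-- points of the internal set with a nonzero determinant of monomials -/
private theorem DetLem_points {U : Ultrafilter ℕ} {σ : Type} [Fintype σ] [DecidableEq σ]
    {K : Type} [Field K] {φ : (ℕ → ℤ) →+* K} (hK : IsK U φ)
    (P : Ideal (MvPolynomial σ K)) (S : ℕ → Finset (σ → ℤ))
    (hcon : ∀ F, F ∉ P → ∃ z : ℕ → σ → ℤ, (∀ᶠ j in (U : Filter ℕ), z j ∈ S j) ∧
      eval (ptS φ z) F ≠ 0)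
    {s : ℕ} (μ : Fin s → (σ →₀ ℕ))
    (hμ : LinearIndependent K (fun i => Ideal.Quotient.mk P (monomial (μ i) (1 : K)))) :
    ∃ z : Fin s → ℕ → σ → ℤ, (∀ l, ∀ᶠ j in (U : Filter ℕ), z l j ∈ S j) ∧
      ∀ᶠ j in (U : Filter ℕ),
        (Matrix.of fun i l => eval (z l j) (monomial (μ i) (1 : ℤ))).det ≠ 0 := by
  classical
  obtain ⟨φ', -, hφ'⟩ := exists_liftK hK
  obtain ⟨z, hz⟩ := exists_points (K := K)
    (Z := {z : ℕ → σ → ℤ // ∀ᶠ j in (U : Filter ℕ), z j ∈ S j})
    (fun i z => eval (ptS φ z.1) (monomial (μ i) (1 : K))) (by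
      intro c hc
      have hF : (∑ i, C (c i) * monomial (μ i) (1 : K)) ∉ P := by
        intro hF
        apply hc
        have h1 : ∑ i, c i • Ideal.Quotient.mk P (monomial (μ i) (1 : K)) = 0 := by
          have h2 := Ideal.Quotient.eq_zero_iff_mem.mpr hF
          rw [map_sum] at h2
          rw [← h2]
          refine Finset.sum_congr rfl fun i _ => ?_
          rw [← smul_eq_C_mul]
          rfl
        exact funext fun i => Fintype.linearIndependent_iff.mp hμ c h1 i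
      obtain ⟨z, hz, hne⟩ := hcon _ hF
      refine ⟨⟨z, hz⟩, ?_⟩
      intro h0
      apply hne
      rw [map_sum, ← h0]
      refine Finset.sum_congr rfl fun i _ => ?_
      rw [map_mul, eval_C])
  refine ⟨fun l => (z l).1, fun l => (z l).2, ?_⟩
  have h1 : (Matrix.of fun i l => eval (gg U (z l).1) (monomial (μ i) (1 : ZG U))).det ≠ 0 := by
    intro h0
    apply hz
    have h2 := congrArg φ' h0
    rw [map_zero, RingHom.map_det] at h2
    rw [← h2]
    congr 1
    ext i l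
    simp only [Matrix.of_apply, RingHom.mapMatrix_apply, Matrix.map_apply]
    rw [eval_monomial, eval_monomial, map_mul, map_one]
    congr 1
    rw [Finsupp.prod, Finsupp.prod, map_prod]
    refine Finset.prod_congr rfl fun a _ => ?_
    rw [map_pow]
    congr 1
    exact (hφ' _).symm
  have h3 : (Matrix.of fun i l => eval (gg U (z l).1) (monomial (μ i) (1 : ZG U))).det =
      ((fun j => (Matrix.of fun i l => eval ((z l).1 j) (monomial (μ i) (1 : ℤ))).det : ℕ → ℤ) :
        ZG U) := by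
    rw [← det_zg]
    congr 1
    ext i l
    simp only [Matrix.of_apply]
    rw [eval_mon_zg]
  rw [h3] at h1
  refine Ultrafilter.eventually_not.mpr fun h4 => h1 ?_
  exact Germ.coe_eq.mpr h4

/-- divisibility of the determinant for almost every index -/
private theorem DetLem_div {U : Ultrafilter ℕ} {σ : Type} [Fintype σ] [DecidableEq σ]
    {K : Type} [Field K] {φ : (ℕ → ℤ) →+* K} (hK : IsK U φ)
    (P : Ideal (MvPolynomial σ K)) (S : ℕ → Finset (σ → ℤ)) (hS : Van U φ S P)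
    {s : ℕ} (z : Fin s → ℕ → σ → ℤ)
    (hz : ∀ l, ∀ᶠ j in (U : Filter ℕ), z l j ∈ S j) (μ : Fin s → (σ →₀ ℕ)) (c : PC σ)
    (hcl : ∀ᶠ j in (U : Filter ℕ), ∀ z ∈ S j, ∀ l, (c.p j : ℤ) ∣ z l - c.ξ j l)
    {κ : Type} [Field κ] {ψ : (ℕ → ℤ) →+* κ} (hψ : IsP U c.p ψ) (k1 : ℕ) :
    ∀ᶠ j in (U : Filter ℕ), (c.p j : ℤ) ^ (∑ k ∈ Finset.range k1,
        (s - lF (redI φ ψ P) (ptS ψ c.ξ) (k + 1))) ∣
      (Matrix.of fun i l => eval (z l j) (monomial (μ i) (1 : ℤ))).det := by
  classical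
  obtain ⟨φ', hinj, hφ'⟩ := exists_liftK hK
  obtain ⟨q, hq, hker, hqa⟩ := exists_liftP hψ
  have h1 := det_alg (pg U c.p) q hq hker (P.comap (MvPolynomial.map φ')) (gg U c.ξ)
    (fun l => gg U (z l))
    (fun l g hg => PA_eval φ' hinj hφ' P (z l) (fun F hF => hS F hF (z l) (hz l)) g hg)
    (by
      intro l i
      have h2 : gg U (z l) i - gg U c.ξ i = ((fun j => z l j i - c.ξ j i : ℕ → ℤ) : ZG U) := rfl
      have h3 := (dvd_iff (U := U) c.p 1 (fun j => z l j i - c.ξ j i)).mpr (by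
        filter_upwards [hcl, hz l] with j hj h4
        rw [pow_one]
        exact hj _ h4 i)
      rw [pow_one] at h3
      rw [h2]
      exact h3)
    (fun i => monomial (μ i) (1 : ZG U)) k1
  have h3 : (Matrix.of fun i l => eval (gg U (z l)) (monomial (μ i) (1 : ZG U))).det =
      ((fun j => (Matrix.of fun i l => eval (z l j) (monomial (μ i) (1 : ℤ))).det : ℕ → ℤ) :
        ZG U) := by
    rw [← det_zg]
    congr 1
    ext i l
    simp only [Matrix.of_apply]
    rw [eval_mon_zg]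
  rw [h3] at h1
  have h4 : (P.comap (MvPolynomial.map φ')).map (MvPolynomial.map q) = redI φ ψ P :=
    (redI_eq φ' hφ' q hqa P).symm
  have h5 : (fun i => q (gg U c.ξ i)) = ptS ψ c.ξ := funext fun i => hqa _
  rw [h4, h5] at h1
  exact (dvd_iff (U := U) c.p _ _).mp h1

/-- the size estimate at one index -/
private theorem DetLem_size {s t : ℕ} (M : Matrix (Fin s) (Fin s) ℤ) (B : ℕ) (hB : 1 ≤ B)
    (e : Fin s → ℕ)
    (h : ∀ i l, |M i l| ≤ (B : ℤ) ^ e i) (h0 : M.det ≠ 0) (p : Fin t → ℕ)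
    (hp : ∀ i, (p i).Prime) (hne : ∀ i i', i ≠ i' → p i ≠ p i') (V : Fin t → ℕ)
    (hV : ∀ i, (p i : ℤ) ^ V i ∣ M.det) (β : Fin t → ℝ)
    (hpB : ∀ i, (B : ℝ) ^ β i ≤ (p i : ℝ)) :
    (B : ℝ) ^ (∑ i, β i * (V i : ℝ)) ≤
      (Nat.factorial s : ℝ) * (B : ℝ) ^ (((∑ i, e i : ℕ)) : ℝ) := by
  have hB0 : (0 : ℝ) < (B : ℝ) := by exact_mod_cast hB
  have h1 : (∏ i, (p i : ℤ) ^ V i) ∣ M.det := by
    refine Finset.prod_dvd_of_coprime ?_ fun i _ => hV i
    intro i _ i' _ hii
    have h2 : Nat.Coprime (p i ^ V i) (p i' ^ V i') :=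
      Nat.Coprime.pow _ _ ((Nat.coprime_primes (hp i) (hp i')).mpr (hne i i' hii))
    have h3 := Nat.isCoprime_iff_coprime.mpr h2
    push_cast at h3
    exact h3
  have h2 : (∏ i, (p i : ℤ) ^ V i) ≤ |M.det| := by
    refine Int.le_of_dvd (abs_pos.mpr h0) ?_
    exact (dvd_abs _ _).mpr h1
  have h3 := abs_det_le M B e h
  have h4 : (∏ i, (p i : ℝ) ^ V i) ≤ (Nat.factorial s : ℝ) * (B : ℝ) ^ (∑ i, e i) := by
    have h5 := h2.trans h3
    exact_mod_cast h5
  rw [Real.rpow_natCast]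
  refine le_trans ?_ h4
  rw [Real.rpow_sum_of_pos hB0]
  refine Finset.prod_le_prod (fun i _ => (Real.rpow_pos_of_pos hB0 _).le) fun i _ => ?_
  rw [Real.rpow_mul hB0.le, Real.rpow_natCast]
  exact pow_le_pow_left₀ (Real.rpow_pos_of_pos hB0 _).le (hpB i) _

/-- the primes of a list are pairwise different at almost every index -/
private theorem DetLem_dis {U : Ultrafilter ℕ} {σ : Type} (L : List (PC σ)) (hdis : Dis U L)
    (i i' : Fin L.length) (h : i ≠ i') :
    ∀ᶠ j in (U : Filter ℕ), (L.get i).p j ≠ (L.get i').p j := by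
  rcases lt_or_gt_of_ne h with h1 | h1
  · exact List.pairwise_iff_get.mp hdis i i' h1
  · filter_upwards [List.pairwise_iff_get.mp hdis i' i h1] with j hj
    exact fun h2 => hj h2.symm

theorem det_lem {U : Ultrafilter ℕ} {B : ℕ → ℕ} (hB : Tendsto B (U : Filter ℕ) atTop)
    {σ : Type} [Fintype σ] {K : Type} [Field K] {φ : (ℕ → ℤ) →+* K} (hK : IsK U φ)
    {P : Ideal (MvPolynomial σ K)} {m : ℕ} (hm : 1 ≤ m) {c : ℝ} (hc : 0 < c)
    (hlim : IsLim (hF P) m c)
    {S : ℕ → Finset (σ → ℤ)} (hV : Van U φ S P) (hbox : InBox B S)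
    (L : List (PC σ)) (hL : ∀ c ∈ L, c.Ok U B S) (hdis : Dis U L)
    {ρ : ℝ} (hρ : 0 < ρ) (hloc : ∀ c ∈ L, LocB U φ P m ρ c)
    (hsum : ρ < (L.map PC.β).sum ^ m) :
    ∃ F : MvPolynomial σ K, F ∉ P ∧ VanF U φ S F := by
  classical
  by_contra hcon0
  have hcon : ∀ F, F ∉ P → ∃ z : ℕ → σ → ℤ, (∀ᶠ j in (U : Filter ℕ), z j ∈ S j) ∧
      eval (ptS φ z) F ≠ 0 := by
    intro F hF
    by_contra h1
    refine hcon0 ⟨F, hF, fun z hz => ?_⟩
    by_contra h2
    exact h1 ⟨z, hz, h2⟩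
  have hmem : ∀ i : Fin L.length, L.get i ∈ L := fun i => List.get_mem L i
  choose κ hfield ψ hψ hbd using fun i : Fin L.length => hloc (L.get i) (hmem i)
  have hm0 : (m : ℝ) ≠ 0 := by
    have : m ≠ 0 := by omega
    exact_mod_cast this
  set K0 : ℝ := ρ ^ ((m : ℝ)⁻¹) with hK0
  have hK0p : 0 < K0 := Real.rpow_pos_of_pos hρ _
  have hK0m : K0 ^ m = ρ := by
    rw [hK0]
    exact Real.rpow_inv_natCast_pow hρ.le (by omega)
  have hsum2 : (L.map PC.β).sum = ∑ i : Fin L.length, (L.get i).β := by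
    rw [← List.sum_ofFn]
    congr 1
    apply List.ext_get
    · simp
    · intro n h1 h2
      simp
  have hβ : ∀ i : Fin L.length, 0 ≤ (L.get i).β := fun i => (hL _ (hmem i)).pos.le
  have hbound : ∑ i : Fin L.length, (L.get i).β ≤ K0 := by
    refine real_ineq m hm c K0 hc hK0p (hF P) (hP_mono P) hlim.1 hlim.2
      (fun i => (L.get i).β) hβ
      (fun i n => lF (redI φ (ψ i) P) (ptS (ψ i) (L.get i).ξ) n) ?_ ?_
    · intro i
      have h1 := hbd i c hlim
      rw [hK0m]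
      exact h1
    · intro D k1
      obtain ⟨μ, -, hμ, hμsum⟩ := exists_mon_basis P D
      obtain ⟨z, hz, hdet⟩ := DetLem_points hK P S hcon μ hμ
      have hdiv := fun i => DetLem_div hK P S hV z hz μ (L.get i) (hL _ (hmem i)).cls (hψ i) k1
      refine le_trans ?_ (Nat.cast_le.mpr hμsum)
      refine exp_le (U := (U : Filter ℕ)) B hB (Nat.factorial (hP P D) : ℝ) _ _ ?_
      have e1 := eventually_all.mpr hdiv
      have e2 := eventually_all.mpr fun i => (hL _ (hmem i)).prime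
      have e3 := eventually_all.mpr fun i => (hL _ (hmem i)).size
      have e4 : ∀ᶠ j in (U : Filter ℕ), ∀ i i' : Fin L.length, i ≠ i' →
          (L.get i).p j ≠ (L.get i').p j := by
        rw [eventually_all]
        intro i
        rw [eventually_all]
        intro i'
        by_cases h : i = i'
        · exact Eventually.of_forall fun j h' => absurd h h'
        · filter_upwards [DetLem_dis L hdis i i' h] with j hj _ using hj
      have e5 := eventually_all.mpr hz
      have e6 := hB.eventually_ge_atTop 1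
      filter_upwards [e1, e2, e3, e4, e5, e6, hdet] with j f1 f2 f3 f4 f5 f6 f8
      refine DetLem_size (Matrix.of fun i l => eval (z l j) (monomial (μ i) (1 : ℤ))) (B j) f6
        (fun i => (μ i).degree) ?_ f8 (fun i => (L.get i).p j) f2 f4 _ f1
        (fun i => (L.get i).β) f3
      intro i l
      refine abs_mon_le (z l j) (B j) (fun a => ?_) (μ i)
      have h1 := hbox j (z l j) (f5 l) a
      rw [abs_of_nonneg h1.1]
      exact h1.2
  rw [hsum2, ← hK0m] at hsum
  have h0 : 0 ≤ ∑ i : Fin L.length, (L.get i).β := Finset.sum_nonneg fun i _ => hβ i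
  exact absurd (pow_le_pow_left₀ h0 hbound m) (not_le.mpr hsum)

end Pool.Agent.H37.DTA
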