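import Pool.Agent.H37.DTA.Defs

/-! MODULE Adapted (about 170 lines). Adapted set of monomials at a point.

Let `R = MvPolynomial σ κ`, `m = mxi ξ`, `Q = R ⧸ (I ⊔ m^k1)`, finite dimensional (spanned by the images of `ev ξ α`, `α.degree < k1`: every polynomial is a polynomial in the `X i - C (ξ i)` (substitution), and `ev ξ α ∈ m^k1` for `α.degree ≥ k1`). For `k ≤ k1` let `F k` be the image of `m^k` in `Q` (a subspace),
`F 0 = ⊤`, `F k1 = ⊥`; `dim (Q ⧸ F k) = Lk I ξ k` for `k ≤ k1` (`(I ⊔ m^k1) ⊔ m^k = I ⊔ m^k`, third isomorphism theorem `DoubleQuot`/`Submodule.quotientQuotientEquivQuotient`). `F k` is spanned by the images of `ev ξ α`, `α.degree = k`, and `F (k+1)`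
(`m^k` is generated by the `ev ξ α`, `α.degree = k`, as an ideal, and a polynomial is `constant + element of m`: `f = C (eval ξ f) + ..`). Choose for every `k < k1` a set `T_k` of exponents of degree `k` whose images form a basis of `F k` modulo `F (k+1)` (`exists_linearIndependent` for the spanning family of
`F k ⧸ (F (k+1))`); `T_k.card = dim F k - dim F (k+1) = Lk (k+1) - Lk k`. `T = ⋃_(k<k1) T_k`: `#{α ∈ T : degree < k} = ∑_(j<k) (Lk (j+1) - Lk j) = Lk k - Lk 0 = Lk k` (`Lk 0 = 0`), and `T` spans `Q` (descending induction: `F k = span T_k + F (k+1)`). (It is also possible to avoid the quotients: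
choose `T` as a set of exponents of degree `< k1` such that for every `k ≤ k1` the members of degree `< k` are a basis of `R ⧸ (I ⊔ m^k)`, by induction on `k`: extend.) -/

set_option autoImplicit false

namespace Pool.Agent.H37.DTA

open MvPolynomial

private theorem ada_add {σ κ : Type*} [Fintype σ] [Field κ] (ξ : σ → κ) (α β : σ →₀ ℕ) :
    ev ξ (α + β) = ev ξ α * ev ξ β := by
  rw [ev, ev, ev, ← Finset.prod_mul_distrib]
  exact Finset.prod_congr rfl fun i _ => by rw [Finsupp.add_apply, pow_add]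

private theorem ada_single {σ κ : Type*} [Fintype σ] [Field κ] (ξ : σ → κ) (i : σ) :
    ev ξ (Finsupp.single i 1) = X i - C (ξ i) := by
  classical
  rw [ev, Finset.prod_eq_single i]
  · rw [Finsupp.single_eq_same, pow_one]
  · intro j _ hj
    rw [Finsupp.single_eq_of_ne hj, pow_zero]
  · intro h
    exact absurd (Finset.mem_univ i) h

/-- `ev α` is in the power of the ideal of the point -/
private theorem ada_mem {σ κ : Type*} [Fintype σ] [Field κ] (ξ : σ → κ) (α : σ →₀ ℕ) :
    ev ξ α ∈ mxi ξ ^ α.degree := by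
  rw [Finsupp.degree_eq_sum, ev, ← Finset.prod_pow_eq_pow_sum]
  refine Ideal.prod_mem_prod fun i _ => Ideal.pow_mem_pow ?_ _
  exact Ideal.subset_span (Set.mem_range_self i)

/-- the power of the ideal of the point is generated by the `ev α` -/
private theorem ada_le {σ κ : Type*} [Fintype σ] [Field κ] (ξ : σ → κ) (k : ℕ) :
    mxi ξ ^ k ≤ Ideal.span {x | ∃ α : σ →₀ ℕ, α.degree = k ∧ ev ξ α = x} := by
  induction k with
  | zero =>
    rw [pow_zero, Ideal.one_eq_top, ← Ideal.span_singleton_one]
    refine Ideal.span_mono ?_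
    rintro x rfl
    exact ⟨0, map_zero _, by simp [ev]⟩
  | succ k ih =>
    rw [pow_succ]
    refine (Ideal.mul_mono_left ih).trans ?_
    rw [mxi, Ideal.span_mul_span', Ideal.span_le]
    rintro _ ⟨_, ⟨α, hα, rfl⟩, _, ⟨i, rfl⟩, rfl⟩
    refine Ideal.subset_span ⟨α + Finsupp.single i 1, ?_, ?_⟩
    · rw [map_add, hα, Finsupp.degree_single]
    · rw [ada_add, ada_single]

/-- evaluation at the point -/
private theorem ada_eval {σ κ : Type*} [Field κ] (ξ : σ → κ) (f : MvPolynomial σ κ) :
    f - C (eval ξ f) ∈ mxi ξ := by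
  induction f using MvPolynomial.induction_on with
  | C a => simp
  | add f g hf hg =>
    have h1 : f + g - C (eval ξ (f + g)) = (f - C (eval ξ f)) + (g - C (eval ξ g)) := by
      rw [map_add, map_add]
      ring
    rw [h1]
    exact Ideal.add_mem _ hf hg
  | mul_X f i hf =>
    have h1 : f * X i - C (eval ξ (f * X i))
        = (f - C (eval ξ f)) * X i + C (eval ξ f) * (X i - C (ξ i)) := by
      rw [map_mul, eval_X, map_mul]
      ring
    rw [h1]
    exact Ideal.add_mem _ (Ideal.mul_mem_right _ _ hf)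
      (Ideal.mul_mem_left _ _ (Ideal.subset_span ⟨i, rfl⟩))

/-- the elements of `m^k` modulo `m^(k+1)` -/
private theorem ada_split {σ κ : Type*} [Fintype σ] [Field κ] (ξ : σ → κ) (k : ℕ)
    {x : MvPolynomial σ κ} (hx : x ∈ mxi ξ ^ k) :
    ∃ u ∈ Submodule.span κ {x | ∃ α : σ →₀ ℕ, α.degree = k ∧ ev ξ α = x},
      x - u ∈ mxi ξ ^ (k + 1) := by
  have key : ∀ u ∈ Submodule.span κ {x | ∃ α : σ →₀ ℕ, α.degree = k ∧ ev ξ α = x},
      ∀ f : MvPolynomial σ κ, f * u - eval ξ f • u ∈ mxi ξ ^ (k + 1) := by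
    intro u hu f
    induction hu using Submodule.span_induction with
    | mem x hx =>
      obtain ⟨α, hα, rfl⟩ := hx
      have h1 : f * ev ξ α - eval ξ f • ev ξ α = ev ξ α * (f - C (eval ξ f)) := by
        rw [smul_eq_C_mul]
        ring
      rw [h1, pow_succ]
      have h2 := ada_mem ξ α
      rw [hα] at h2
      exact Ideal.mul_mem_mul h2 (ada_eval ξ f)
    | zero =>
      rw [mul_zero, smul_zero, sub_zero]
      exact zero_mem _
    | add x y _ _ hx hy =>
      have h1 : f * (x + y) - eval ξ f • (x + y)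
          = (f * x - eval ξ f • x) + (f * y - eval ξ f • y) := by
        rw [smul_add]
        ring
      rw [h1]
      exact Ideal.add_mem _ hx hy
    | smul a x _ hx =>
      have h1 : f * (a • x) - eval ξ f • (a • x) = C a * (f * x - eval ξ f • x) := by
        simp only [smul_eq_C_mul]
        ring
      rw [h1]
      exact Ideal.mul_mem_left _ _ hx
  have hx' := ada_le ξ k hx
  clear hx
  induction hx' using Submodule.span_induction with
  | mem x hx =>
    exact ⟨x, Submodule.subset_span hx, by rw [sub_self]; exact zero_mem _⟩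
  | zero => exact ⟨0, zero_mem _, by rw [sub_self]; exact zero_mem _⟩
  | add x y _ _ hx hy =>
    obtain ⟨u, hu, hxu⟩ := hx
    obtain ⟨v, hv, hyv⟩ := hy
    refine ⟨u + v, add_mem hu hv, ?_⟩
    rw [add_sub_add_comm]
    exact Ideal.add_mem _ hxu hyv
  | smul f x _ hx =>
    obtain ⟨u, hu, hxu⟩ := hx
    refine ⟨eval ξ f • u, Submodule.smul_mem _ _ hu, ?_⟩
    have h1 : f • x - eval ξ f • u = f * (x - u) + (f * u - eval ξ f • u) := by
      rw [smul_eq_mul]
      ring
    rw [h1]
    exact Ideal.add_mem _ (Ideal.mul_mem_left _ _ hxu) (key u hu f)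

/-- every polynomial is a combination of the `ev α` of degree less than `k` modulo `m^k` -/
private theorem ada_span {σ κ : Type*} [Fintype σ] [Field κ] (ξ : σ → κ) (k : ℕ)
    (f : MvPolynomial σ κ) :
    ∃ u ∈ Submodule.span κ {x | ∃ α : σ →₀ ℕ, α.degree < k ∧ ev ξ α = x},
      f - u ∈ mxi ξ ^ k := by
  induction k with
  | zero => exact ⟨0, zero_mem _, by rw [pow_zero, Ideal.one_eq_top]; trivial⟩
  | succ k ih =>
    obtain ⟨u, hu, h1⟩ := ih
    obtain ⟨v, hv, h2⟩ := ada_split ξ k h1
    refine ⟨u + v, add_mem (Submodule.span_mono ?_ hu) (Submodule.span_mono ?_ hv), ?_⟩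
    · rintro x ⟨α, hα, rfl⟩
      exact ⟨α, by omega, rfl⟩
    · rintro x ⟨α, hα, rfl⟩
      exact ⟨α, by omega, rfl⟩
    · rw [← sub_sub]
      exact h2

/-- `R ⧸ (I + m^k)` is finite dimensional -/
theorem finite_quot {σ κ : Type*} [Fintype σ] [Field κ] (I : Ideal (MvPolynomial σ κ))
    (ξ : σ → κ) (k : ℕ) : Module.Finite κ (MvPolynomial σ κ ⧸ (I ⊔ mxi ξ ^ k)) := by
  set J := I ⊔ mxi ξ ^ k with hJ
  have hfin : {x | ∃ α : σ →₀ ℕ, α.degree < k ∧ ev ξ α = x}.Finite :=
    (Finsupp.finite_of_degree_lt k).image (ev ξ)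
  refine Module.finite_def.mpr (Submodule.fg_def.mpr ⟨(Ideal.Quotient.mkₐ κ J) ''
    {x | ∃ α : σ →₀ ℕ, α.degree < k ∧ ev ξ α = x}, hfin.image _, ?_⟩)
  refine Submodule.eq_top_iff'.mpr fun y => ?_
  obtain ⟨f, rfl⟩ := Ideal.Quotient.mkₐ_surjective κ J y
  obtain ⟨u, hu, hfu⟩ := ada_span ξ k f
  have h1 : Ideal.Quotient.mkₐ κ J f = Ideal.Quotient.mkₐ κ J u := by
    rw [Ideal.Quotient.mkₐ_eq_mk, Ideal.Quotient.eq]
    exact (le_sup_right : mxi ξ ^ k ≤ J) hfu
  rw [h1]
  have h2 := Submodule.mem_map_of_mem (f := (Ideal.Quotient.mkₐ κ J).toLinearMap) hu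
  rw [Submodule.map_span] at h2
  exact h2

theorem exists_adapted {σ κ : Type*} [Fintype σ] [DecidableEq σ] [Field κ]
    (I : Ideal (MvPolynomial σ κ)) (ξ : σ → κ) (k1 : ℕ) :
    ∃ T : Finset (σ →₀ ℕ), (∀ α ∈ T, α.degree < k1) ∧
      (∀ k ≤ k1, (T.filter fun α => α.degree < k).card ≤ Lk I ξ k) ∧
      ∀ f : MvPolynomial σ κ, ∃ c : (σ →₀ ℕ) → κ,
        f - ∑ α ∈ T, C (c α) * ev ξ α ∈ I ⊔ mxi ξ ^ k1 := by
  classical
  induction k1 with
  | zero =>
    refine ⟨∅, by simp, by simp, fun f => ⟨0, ?_⟩⟩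
    rw [pow_zero, Ideal.one_eq_top, sup_top_eq]
    trivial
  | succ k ih =>
    obtain ⟨T, h1, h2, h3⟩ := ih
    set J := I ⊔ mxi ξ ^ k with hJ
    set J' := I ⊔ mxi ξ ^ (k + 1) with hJ'
    have hle : J' ≤ J := sup_le_sup_left (Ideal.pow_le_pow_right (Nat.le_succ k)) I
    have : Module.Finite κ (MvPolynomial σ κ ⧸ J') := finite_quot I ξ (k + 1)
    have : Module.Finite κ (MvPolynomial σ κ ⧸ J) := finite_quot I ξ k
    set v : {α : σ →₀ ℕ // α.degree = k} → MvPolynomial σ κ ⧸ J' :=
      fun α => Ideal.Quotient.mkₐ κ J' (ev ξ α.1) with hv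
    obtain ⟨κ', a, ha, hs, hli⟩ := exists_linearIndependent' κ v
    have : Finite κ' := hli.finite
    have : Fintype κ' := Fintype.ofFinite κ'
    -- the dimension count
    set φ : (MvPolynomial σ κ ⧸ J') →ₗ[κ] (MvPolynomial σ κ ⧸ J) :=
      (Ideal.Quotient.factorₐ κ hle).toLinearMap with hφ
    have hφs : Function.Surjective φ := by
      intro y
      obtain ⟨f, rfl⟩ := Ideal.Quotient.mkₐ_surjective κ J y
      exact ⟨Ideal.Quotient.mkₐ κ J' f, rfl⟩
    have hspan : Submodule.span κ (Set.range (v ∘ a)) ≤ LinearMap.ker φ := by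
      rw [Submodule.span_le]
      rintro _ ⟨i, rfl⟩
      change Ideal.Quotient.mk J (ev ξ (a i).1) = 0
      rw [Ideal.Quotient.eq_zero_iff_mem]
      have h4 := ada_mem ξ (a i).1
      rw [(a i).2] at h4
      exact (le_sup_right : mxi ξ ^ k ≤ J) h4
    have hcard : Fintype.card κ' + Lk I ξ k ≤ Lk I ξ (k + 1) := by
      have h4 := LinearMap.finrank_range_add_finrank_ker φ
      rw [LinearMap.range_eq_top.mpr hφs, finrank_top] at h4
      have h5 := Submodule.finrank_mono hspan
      rw [finrank_span_eq_card hli] at h5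
      change Fintype.card κ' + Module.finrank κ (MvPolynomial σ κ ⧸ J)
        ≤ Module.finrank κ (MvPolynomial σ κ ⧸ J')
      omega
    set e : κ' → (σ →₀ ℕ) := fun i => (a i).1 with he
    have hei : Function.Injective e := fun i j hij => ha (Subtype.ext hij)
    have hdisj : Disjoint T (Finset.univ.image e) := by
      rw [Finset.disjoint_left]
      intro α hα hα'
      obtain ⟨i, _, rfl⟩ := Finset.mem_image.mp hα'
      have h4 := h1 _ hα
      rw [he] at h4
      have h5 := (a i).2
      simp only at h4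
      omega
    have hcT : (Finset.univ.image e).card ≤ Fintype.card κ' := Finset.card_image_le
    refine ⟨T ∪ Finset.univ.image e, ?_, ?_, ?_⟩
    · intro α hα
      rcases Finset.mem_union.mp hα with h | h
      · exact (h1 α h).trans (Nat.lt_succ_self k)
      · obtain ⟨i, _, rfl⟩ := Finset.mem_image.mp h
        rw [he]
        simp only
        rw [(a i).2]
        exact Nat.lt_succ_self k
    · intro k' hk'
      rcases Nat.lt_or_ge k k' with hlt | hge
      · have hk1 : k' = k + 1 := by omega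
        subst hk1
        have h4 : T.card ≤ Lk I ξ k := by
          have h5 := h2 k le_rfl
          rwa [Finset.filter_true_of_mem h1] at h5
        calc ((T ∪ Finset.univ.image e).filter fun α => α.degree < k + 1).card
            ≤ (T ∪ Finset.univ.image e).card := Finset.card_filter_le _ _
          _ ≤ T.card + (Finset.univ.image e).card := Finset.card_union_le _ _
          _ ≤ Lk I ξ (k + 1) := by omega
      · have h4 : (T ∪ Finset.univ.image e).filter (fun α => α.degree < k')
            = T.filter fun α => α.degree < k' := by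
          rw [Finset.filter_union, Finset.union_eq_left]
          intro α hα
          obtain ⟨hα1, hα2⟩ := Finset.mem_filter.mp hα
          obtain ⟨i, _, rfl⟩ := Finset.mem_image.mp hα1
          have h5 := (a i).2
          rw [he] at hα2
          simp only at hα2
          omega
        rw [h4]
        exact h2 k' hge
    · intro f
      obtain ⟨c, hc⟩ := h3 f
      -- the class of the remainder
      obtain ⟨x, hx, y, hy, hxy⟩ := Submodule.mem_sup.mp hc
      obtain ⟨u, hu, hyu⟩ := ada_split ξ k hy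
      have h4 : Ideal.Quotient.mkₐ κ J' (f - ∑ α ∈ T, C (c α) * ev ξ α)
          = Ideal.Quotient.mkₐ κ J' u := by
        rw [Ideal.Quotient.mkₐ_eq_mk, Ideal.Quotient.eq, ← hxy, add_sub_assoc]
        exact Ideal.add_mem _ ((le_sup_left : I ≤ J') hx)
          ((le_sup_right : mxi ξ ^ (k + 1) ≤ J') hyu)
      have h5 : Ideal.Quotient.mkₐ κ J' u ∈ Submodule.span κ (Set.range (v ∘ a)) := by
        rw [hs]
        have h6 := Submodule.mem_map_of_mem (f := (Ideal.Quotient.mkₐ κ J').toLinearMap) hu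
        rw [Submodule.map_span] at h6
        refine Submodule.span_mono ?_ h6
        rintro _ ⟨_, ⟨α, hα, rfl⟩, rfl⟩
        exact ⟨⟨α, hα⟩, rfl⟩
      obtain ⟨c', hc'⟩ := (Submodule.mem_span_range_iff_exists_fun κ).mp h5
      refine ⟨Function.extend e c' c, ?_⟩
      rw [Finset.sum_union hdisj, Finset.sum_image fun i _ j _ hij => hei hij]
      have h7 : ∑ α ∈ T, C (Function.extend e c' c α) * ev ξ α
          = ∑ α ∈ T, C (c α) * ev ξ α := by
        refine Finset.sum_congr rfl fun α hα => ?_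
        rw [Function.extend_apply' _ _ _ ?_]
        rintro ⟨i, rfl⟩
        exact Finset.disjoint_left.mp hdisj hα (Finset.mem_image_of_mem _ (Finset.mem_univ i))
      have h8 : ∑ i : κ', C (Function.extend e c' c (e i)) * ev ξ (e i)
          = ∑ i : κ', c' i • ev ξ (e i) := by
        refine Finset.sum_congr rfl fun i _ => ?_
        rw [hei.extend_apply, smul_eq_C_mul]
      rw [h7, h8, ← sub_sub]
      have h9 : Ideal.Quotient.mkₐ κ J' (f - ∑ α ∈ T, C (c α) * ev ξ α
          - ∑ i : κ', c' i • ev ξ (e i)) = 0 := by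
        rw [map_sub, h4, map_sum, ← hc', sub_eq_zero]
        refine Finset.sum_congr rfl fun i _ => ?_
        rw [map_smul]
        rfl
      rw [Ideal.Quotient.mkₐ_eq_mk, Ideal.Quotient.eq_zero_iff_mem] at h9
      exact h9

end Pool.Agent.H37.DTA
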