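import Mathlib

/-! # The algebraic half of the determinant lemma (helper62_n64_paper.md, section 2): definitions -/

set_option autoImplicit false

namespace Pool.Agent.H37.DTA

open MvPolynomial

/-- the ideal of the point `ξ` -/
noncomputable def mxi {σ B : Type*} [CommRing B] (ξ : σ → B) : Ideal (MvPolynomial σ B) :=
  Ideal.span (Set.range fun i => X i - C (ξ i))

/-- the monomial `(X - ξ)^α` -/
noncomputable def ev {σ B : Type*} [Fintype σ] [CommRing B] (ξ : σ → B) (α : σ →₀ ℕ) :
    MvPolynomial σ B := ∏ i, (X i - C (ξ i)) ^ α i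

/-- `L_I(k) = dim R / (I + m^k)`, `m` the ideal of the point `ξ` -/
noncomputable def Lk {σ κ : Type*} [Field κ] (I : Ideal (MvPolynomial σ κ)) (ξ : σ → κ)
    (k : ℕ) : ℕ :=
  Module.finrank κ (MvPolynomial σ κ ⧸ (I ⊔ mxi ξ ^ k))

end Pool.Agent.H37.DTA
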