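import Pool.Agent.H37.DTA.Defs

/-! MODULE LiftA (about 120 lines). Lifting from the residue field by iteration.

`step`: for `f` in `MvPolynomial σ A` there are `c`, `f₁` with `f - ∑ C (c α) * ev ξ α - C π * f₁ ∈ PA ⊔ mxi ξ ^ k1`: apply `h` to `map q f`; choose `c α : A` with `q (c α)` = the given coefficients (`hq`). The element of `PA.map (map q) ⊔ mxi (q ∘ ξ) ^ k1` is the image of an element of `PA ⊔ mxi ξ ^ k1`
(`(mxi ξ ^ k1).map (map q) = mxi (q ∘ ξ) ^ k1` (`Ideal.map_pow`, `Ideal.map_span`), `Ideal.map_sup`, `Ideal.mem_map_iff_of_surjective`; `map q` is surjective: `MvPolynomial.map_surjective`). The difference is in the kernel of `map q`: all its coefficients are in the ideal `(π)` (`hker`), so it is `C π * f₁`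
(`MvPolynomial.C_dvd_iff_dvd_coeff`). `lift_iter`: induction on `N`: `f - ∑ C (c α) * ev ξ α - C (π^N) * f_N ∈ PA ⊔ mxi ξ ^ k1` (apply `step` to `f_N`, multiply by `C (π^N)`, add the coefficients). -/

set_option autoImplicit false

namespace Pool.Agent.H37.DTA

open MvPolynomial

private theorem lifta_map_mxi {σ A κ : Type*} [CommRing A] [CommRing κ] (q : A →+* κ)
    (ξ : σ → A) : (mxi ξ).map (MvPolynomial.map q) = mxi (fun i => q (ξ i)) := by
  unfold mxi
  rw [Ideal.map_span, ← Set.range_comp]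
  congr 2
  funext i
  simp

private theorem lifta_map_ev {σ A κ : Type*} [Fintype σ] [CommRing A] [CommRing κ] (q : A →+* κ)
    (ξ : σ → A) (α : σ →₀ ℕ) :
    MvPolynomial.map q (ev ξ α) = ev (fun i => q (ξ i)) α := by
  unfold ev
  simp [map_prod]

private theorem lifta_step {σ A κ : Type*} [Fintype σ] [DecidableEq σ] [CommRing A] [CommRing κ]
    (π : A) (q : A →+* κ) (hq : Function.Surjective q) (hker : RingHom.ker q = Ideal.span {π})
    (PA : Ideal (MvPolynomial σ A)) (ξ : σ → A) (k1 : ℕ) (T : Finset (σ →₀ ℕ))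
    (h : ∀ f : MvPolynomial σ κ, ∃ c : (σ →₀ ℕ) → κ,
      f - ∑ α ∈ T, C (c α) * ev (fun i => q (ξ i)) α ∈
        PA.map (MvPolynomial.map q) ⊔ mxi (fun i => q (ξ i)) ^ k1)
    (f : MvPolynomial σ A) :
    ∃ (c : (σ →₀ ℕ) → A) (g : MvPolynomial σ A),
      f - ∑ α ∈ T, C (c α) * ev ξ α - C π * g ∈ PA ⊔ mxi ξ ^ k1 := by
  obtain ⟨c, hc⟩ := h (MvPolynomial.map q f)
  choose c' hc' using fun α => hq (c α)
  have hJ : PA.map (MvPolynomial.map q) ⊔ mxi (fun i => q (ξ i)) ^ k1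
      = (PA ⊔ mxi ξ ^ k1).map (MvPolynomial.map q) := by
    rw [Ideal.map_sup, Ideal.map_pow, lifta_map_mxi]
  rw [hJ, Ideal.mem_map_iff_of_surjective _ (MvPolynomial.map_surjective q hq)] at hc
  obtain ⟨g, hg, hgc⟩ := hc
  have hr : MvPolynomial.map q (f - ∑ α ∈ T, C (c' α) * ev ξ α - g) = 0 := by
    rw [map_sub, map_sub, hgc, map_sum]
    simp only [map_mul, MvPolynomial.map_C, lifta_map_ev, hc']
    exact sub_self _
  have hd : C π ∣ f - ∑ α ∈ T, C (c' α) * ev ξ α - g := by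
    rw [MvPolynomial.C_dvd_iff_dvd_coeff]
    intro m
    rw [← Ideal.mem_span_singleton, ← hker, RingHom.mem_ker, ← MvPolynomial.coeff_map, hr,
      MvPolynomial.coeff_zero]
  obtain ⟨f1, hf1⟩ := hd
  refine ⟨c', f1, ?_⟩
  rw [← hf1, sub_sub_cancel]
  exact hg

theorem lift_iter {σ A κ : Type*} [Fintype σ] [DecidableEq σ] [CommRing A] [CommRing κ] (π : A)
    (q : A →+* κ) (hq : Function.Surjective q) (hker : RingHom.ker q = Ideal.span {π})
    (PA : Ideal (MvPolynomial σ A)) (ξ : σ → A) (k1 : ℕ) (T : Finset (σ →₀ ℕ))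
    (h : ∀ f : MvPolynomial σ κ, ∃ c : (σ →₀ ℕ) → κ,
      f - ∑ α ∈ T, C (c α) * ev (fun i => q (ξ i)) α ∈
        PA.map (MvPolynomial.map q) ⊔ mxi (fun i => q (ξ i)) ^ k1) (N : ℕ)
    (f : MvPolynomial σ A) :
    ∃ (c : (σ →₀ ℕ) → A) (g : MvPolynomial σ A),
      f - ∑ α ∈ T, C (c α) * ev ξ α - C (π ^ N) * g ∈ PA ⊔ mxi ξ ^ k1 := by
  induction N with
  | zero =>
    refine ⟨0, f, ?_⟩
    have : f - ∑ α ∈ T, C ((0 : (σ →₀ ℕ) → A) α) * ev ξ α - C (π ^ 0) * f = 0 := by simp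
    rw [this]
    exact Ideal.zero_mem _
  | succ N ih =>
    obtain ⟨c, g, hg⟩ := ih
    obtain ⟨c', g', hg'⟩ := lifta_step π q hq hker PA ξ k1 T h g
    refine ⟨fun α => c α + π ^ N * c' α, g', ?_⟩
    have e : f - ∑ α ∈ T, C (c α + π ^ N * c' α) * ev ξ α - C (π ^ (N + 1)) * g'
        = (f - ∑ α ∈ T, C (c α) * ev ξ α - C (π ^ N) * g)
          + C (π ^ N) * (g - ∑ α ∈ T, C (c' α) * ev ξ α - C π * g') := by
      have e1 : ∑ α ∈ T, C (c α + π ^ N * c' α) * ev ξ α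
          = ∑ α ∈ T, C (c α) * ev ξ α + C (π ^ N) * ∑ α ∈ T, C (c' α) * ev ξ α := by
        rw [Finset.mul_sum, ← Finset.sum_add_distrib]
        refine Finset.sum_congr rfl fun α _ => ?_
        rw [C_add, C_mul]
        ring
      rw [e1, pow_succ, C_mul]
      ring
    rw [e]
    exact Ideal.add_mem _ hg (Ideal.mul_mem_left _ _ hg')

/-- values at a point congruent to `ξ` -/
theorem eval_mem_of_mem {σ A : Type*} [Fintype σ] [CommRing A] (π : A)
    (PA : Ideal (MvPolynomial σ A)) (ξ z : σ → A) (hz : ∀ g ∈ PA, eval z g = 0)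
    (hξ : ∀ i, π ∣ z i - ξ i) (k1 : ℕ) (f : MvPolynomial σ A) (hf : f ∈ PA ⊔ mxi ξ ^ k1) :
    π ^ k1 ∣ eval z f := by
  obtain ⟨a, ha, b, hb, rfl⟩ := Submodule.mem_sup.1 hf
  rw [map_add, hz a ha, zero_add]
  have h1 : (mxi ξ).map (eval z) ≤ Ideal.span {π} := by
    unfold mxi
    rw [Ideal.map_span, Ideal.span_le]
    rintro _ ⟨_, ⟨i, rfl⟩, rfl⟩
    simp only [map_sub, eval_X, eval_C, SetLike.mem_coe]
    exact Ideal.mem_span_singleton.2 (hξ i)
  have h2 := Ideal.mem_map_of_mem (eval z) hb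
  rw [Ideal.map_pow] at h2
  have h3 := Ideal.pow_right_mono h1 k1 h2
  rw [Ideal.span_singleton_pow] at h3
  exact Ideal.mem_span_singleton.1 h3

theorem eval_ev {σ A : Type*} [Fintype σ] [CommRing A] (π : A) (ξ z : σ → A)
    (hξ : ∀ i, π ∣ z i - ξ i) (α : σ →₀ ℕ) : π ^ α.degree ∣ eval z (ev ξ α) := by
  unfold ev
  rw [map_prod, Finsupp.degree_eq_sum, ← Finset.prod_pow_eq_pow_sum]
  refine Finset.prod_dvd_prod_of_dvd _ _ fun i _ => ?_
  simp only [map_pow, map_sub, eval_X, eval_C]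
  exact pow_dvd_pow_of_dvd (hξ i) _

end Pool.Agent.H37.DTA
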