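import Pool.Agent.H37.DTA.DetW
import Pool.Agent.H37.DTA.Adapted
import Pool.Agent.H37.DTA.LiftA

/-! MODULE DetAlg (about 60 lines). The algebraic half of the determinant lemma.

`exists_adapted` for `I = PA.map (map q)` and the point `q ∘ ξ` gives `T`. `lift_iter` with `N = k1` for every `μ i`: `μ i - ∑ C (c i α) * ev ξ α - C (π^k1) * g i ∈ PA ⊔ mxi ξ ^ k1`, so `eval (z l) (μ i) = ∑ c i α * eval (z l) (ev ξ α) + π^k1 * (..)` (`eval_mem_of_mem`).
`det_weight` with `w α = α.degree`, `L k = Lk .. k`, `b α l = eval (z l) (ev ξ α)` (`eval_ev`). -/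

set_option autoImplicit false

namespace Pool.Agent.H37.DTA

open MvPolynomial

theorem det_alg {σ A κ : Type*} [Fintype σ] [DecidableEq σ] [CommRing A] [Field κ] (π : A)
    (q : A →+* κ) (hq : Function.Surjective q) (hker : RingHom.ker q = Ideal.span {π})
    (PA : Ideal (MvPolynomial σ A)) (ξ : σ → A) {s : ℕ} (z : Fin s → σ → A)
    (hz : ∀ l, ∀ g ∈ PA, eval (z l) g = 0) (hξ : ∀ l i, π ∣ z l i - ξ i)
    (μ : Fin s → MvPolynomial σ A) (k1 : ℕ) :
    π ^ (∑ k ∈ Finset.range k1,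
        (s - Lk (PA.map (MvPolynomial.map q)) (fun i => q (ξ i)) (k + 1))) ∣
      (Matrix.of fun i l => eval (z l) (μ i)).det := by
  obtain ⟨T, -, hTL, hTs⟩ := exists_adapted (PA.map (MvPolynomial.map q)) (fun i => q (ξ i)) k1
  choose c g hcg using fun i : Fin s => lift_iter π q hq hker PA ξ k1 T hTs k1 (μ i)
  have hd : ∀ (i l : Fin s), ∃ d : A, eval (z l)
      (μ i - ∑ α ∈ T, C (c i α) * ev ξ α - C (π ^ k1) * g i) = π ^ k1 * d := fun i l =>
    eval_mem_of_mem π PA ξ (z l) (hz l) (hξ l) k1 _ (hcg i)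
  choose d hd using hd
  refine det_weight π T (fun α => α.degree)
    (Lk (PA.map (MvPolynomial.map q)) (fun i => q (ξ i))) hTL (fun i α => c i α)
    (fun α l => eval (z l) (ev ξ α)) (fun i l => eval (z l) (g i) + d i l) ?_ _ ?_
  · intro α _ l
    exact eval_ev π ξ (z l) (hξ l) α
  · intro i l
    rw [Matrix.of_apply]
    have h1 := hd i l
    rw [map_sub, map_sub, map_sum, map_mul, eval_C] at h1
    have h2 : ∑ α ∈ T, eval (z l) (C (c i α) * ev ξ α) = ∑ α ∈ T, c i α * eval (z l) (ev ξ α) := by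
      refine Finset.sum_congr rfl fun α _ => ?_
      rw [map_mul, eval_C]
    rw [h2] at h1
    linear_combination h1

end Pool.Agent.H37.DTA
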