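import Pool.Agent.H37.DTA.Defs

/-! MODULE DetW (about 130 lines). Determinant of a matrix whose rows are combinations of rows of different weights.

Expand `det` in the rows (`Matrix.detRowAlternating` is multilinear; row `i` is `∑_(t ∈ T) a i t • b t + π^k1 • c i`, a sum over `Option ↥T` or `insert`): `MultilinearMap.map_sum_finset` (or `MultilinearMap.map_sum`). A term is given by `f : Fin s → Option ι`; let `R` be the set of rows with `f i = some t_i`.
If `t_i = t_j` for two different rows of `R`: two proportional rows, the term is `0`. Otherwise the `i`-th row is divisible by `π^(w t_i)` for `i ∈ R` (`hb`) and by `π^k1` for the others, so the term is divisible by `π^e`, `e = ∑_(i ∈ R) w t_i + k1 * (s - R.card)`. For every `k ≤ k1`, `k ≥ 1`: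
`#{i ∈ R : k ≤ w t_i} + (s - R.card) ≥ s - #{t ∈ T : w t < k} ≥ s - L k` (`t` injective on `R`). `w t_i ≥ ∑_(k=1..k1) [k ≤ w t_i]`, so `e ≥ ∑_(k < k1) (s - L (k+1))`. -/

set_option autoImplicit false

namespace Pool.Agent.H37.DTA

theorem det_weight {A ι : Type*} [CommRing A] [DecidableEq ι] (π : A) {s k1 : ℕ} (T : Finset ι)
    (w : ι → ℕ) (L : ℕ → ℕ) (hL : ∀ k ≤ k1, (T.filter fun t => w t < k).card ≤ L k)
    (a : Fin s → ι → A) (b : ι → Fin s → A) (c : Fin s → Fin s → A)
    (hb : ∀ t ∈ T, ∀ l, π ^ w t ∣ b t l) (M : Matrix (Fin s) (Fin s) A)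
    (hM : ∀ i l, M i l = (∑ t ∈ T, a i t * b t l) + π ^ k1 * c i l) :
    π ^ (∑ k ∈ Finset.range k1, (s - L (k + 1))) ∣ M.det := by
  classical
  set g : Fin s → Option ι → Fin s → A := fun i u => match u with
    | none => fun l => π ^ k1 * c i l
    | some t => fun l => a i t * b t l with hg
  have hM1 : M = fun i => ∑ u ∈ Finset.insertNone T, g i u := by
    funext i l
    rw [hM i l, Finset.sum_apply, Finset.sum_insertNone, add_comm]
  have hM2 : M.det = ∑ r ∈ Fintype.piFinset (fun _ : Fin s => Finset.insertNone T),
      Matrix.det (Matrix.of fun i => g i (r i)) := by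
    have h1 := (Matrix.detRowAlternating (n := Fin s) (R := A)).toMultilinearMap.map_sum_finset g
      (fun _ => Finset.insertNone T)
    rw [hM1]
    exact h1
  rw [hM2]
  refine Finset.dvd_sum fun r hr => ?_
  rw [Fintype.mem_piFinset] at hr
  -- the rows
  have hT : ∀ i t, r i = some t → t ∈ T := by
    intro i t hit
    have := hr i
    rw [hit, Finset.mem_insertNone] at this
    exact this t rfl
  set γ : Fin s → A := fun i => match r i with
    | none => π ^ k1
    | some t => a i t with hγ
  set N : Fin s → Fin s → A := fun i => match r i with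
    | none => c i
    | some t => b t with hN
  have hrow : (Matrix.of fun i => g i (r i)) = Matrix.of (fun i l => γ i * N i l) := by
    ext i l
    simp only [Matrix.of_apply, hg, hγ, hN]
    cases r i <;> rfl
  have hscale : ∀ (γ : Fin s → A) (N : Fin s → Fin s → A),
      (Matrix.of fun i l => γ i * N i l).det = (∏ i, γ i) * Matrix.det (Matrix.of N) :=
    fun γ N => Matrix.det_mul_column γ (Matrix.of N)
  rw [hrow, hscale]
  by_cases hinj : ∀ i j, i ≠ j → r i = r j → r i = none
  swap
  · push Not at hinj
    obtain ⟨i, j, hij, h1, h2⟩ := hinj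
    obtain ⟨t, ht⟩ := Option.ne_none_iff_exists'.1 h2
    have h3 : N i = N j := by
      simp only [hN]
      rw [← h1, ht]
    have h4 : Matrix.det (Matrix.of N) = 0 :=
      Matrix.det_zero_of_row_eq hij h3
    rw [h4, mul_zero]
    exact dvd_zero _
  set v : Option ι → ℕ := fun u => match u with
    | none => k1
    | some t => w t with hv
  -- divisibility of the rows
  have hdiv : ∀ i l, π ^ v (r i) ∣ γ i * N i l := by
    intro i l
    simp only [hv, hγ, hN]
    cases h : r i with
    | none => exact dvd_mul_right _ _
    | some t => exact (hb t (hT i t h) l).mul_left _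
  choose N' hN' using hdiv
  have hrow2 : (∏ i, γ i) * Matrix.det (Matrix.of N) =
      (∏ i, π ^ v (r i)) * Matrix.det (Matrix.of N') := by
    rw [← hscale, ← hscale]
    congr 1
    ext i l
    simp only [Matrix.of_apply]
    exact hN' i l
  rw [hrow2, Finset.prod_pow_eq_pow_sum]
  refine Dvd.dvd.mul_right (pow_dvd_pow _ ?_) _
  -- counting
  have h1 : ∀ i, ∑ k ∈ Finset.range k1, (if k < v (r i) then 1 else 0) ≤ v (r i) := by
    intro i
    rw [← Finset.sum_filter, Finset.sum_const, smul_eq_mul, mul_one]
    calc ((Finset.range k1).filter fun k => k < v (r i)).card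
        ≤ (Finset.range (v (r i))).card := by
          apply Finset.card_le_card
          intro k hk
          rw [Finset.mem_filter] at hk
          exact Finset.mem_range.2 hk.2
      _ = v (r i) := Finset.card_range _
  refine le_trans ?_ (Finset.sum_le_sum fun i _ => h1 i)
  rw [Finset.sum_comm]
  refine Finset.sum_le_sum fun k hk => ?_
  rw [Finset.mem_range] at hk
  rw [← Finset.sum_filter, Finset.sum_const, smul_eq_mul, mul_one]
  have h2 : (Finset.univ.filter fun i : Fin s => ¬ k < v (r i)).card ≤
      (T.filter fun t => w t < k + 1).card := by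
    have h3 : ∀ i ∈ Finset.univ.filter (fun i : Fin s => ¬ k < v (r i)), ∃ t, r i = some t ∧
        w t < k + 1 := by
      intro i hi
      rw [Finset.mem_filter] at hi
      cases h : r i with
      | none =>
        rw [h] at hi
        exact absurd hk hi.2
      | some t =>
        rw [h] at hi
        exact ⟨t, rfl, by have := hi.2; simp only [hv] at this; omega⟩
    rw [← Finset.card_image_of_injective (T.filter fun t => w t < k + 1) (Option.some_injective ι)]
    apply Finset.card_le_card_of_injOn r
    · intro i hi
      obtain ⟨t, ht, hw⟩ := h3 i hi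
      rw [ht]
      exact Finset.mem_coe.2 (Finset.mem_image.2 ⟨t, Finset.mem_filter.2 ⟨hT i t ht, hw⟩, rfl⟩)
    · intro i hi j hj hij
      by_contra hne
      obtain ⟨t, ht, -⟩ := h3 i hi
      rw [hinj i j hne hij] at ht
      exact absurd ht (by simp)
  have h4 := hL (k + 1) hk
  have h5 := Finset.card_filter_add_card_filter_not (s := (Finset.univ : Finset (Fin s)))
    (fun i => k < v (r i))
  rw [Finset.card_univ, Fintype.card_fin] at h5
  omega

end Pool.Agent.H37.DTA
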