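import Pool.Agent.H19.N64.Frame
import Pool.Agent.H37.DTA.Defs

/-! # The determinant lemma in the ultraproduct frame: definitions -/

set_option autoImplicit false

namespace Pool.Agent.H37.DTA

open MvPolynomial Filter Pool.Agent.H19.N64

/-- the ultrapower of `ℤ` -/
abbrev ZU : Type := (hyperfilter ℕ : Filter ℕ).Germ ℤ

/-- the inclusion `*ℤ → *ℚ` -/
noncomputable def zq : ZU →+* KU where
  toFun := Germ.map (fun n : ℤ => (n : ℚ))
  map_one' := by
    change (((fun _ => ((1 : ℤ) : ℚ)) : ℕ → ℚ) : KU) = ((fun _ => (1 : ℚ) : ℕ → ℚ) : KU)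
    simp
  map_zero' := by
    change (((fun _ => ((0 : ℤ) : ℚ)) : ℕ → ℚ) : KU) = ((fun _ => (0 : ℚ) : ℕ → ℚ) : KU)
    simp
  map_add' := by
    intro x y
    induction x using Germ.inductionOn with | _ f
    induction y using Germ.inductionOn with | _ g
    change (((fun j => ((f j + g j : ℤ) : ℚ)) : ℕ → ℚ) : KU) =
      ((fun j => (f j : ℚ) + (g j : ℚ) : ℕ → ℚ) : KU)
    simp
  map_mul' := by
    intro x y
    induction x using Germ.inductionOn with | _ f
    induction y using Germ.inductionOn with | _ g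
    change (((fun j => ((f j * g j : ℤ) : ℚ)) : ℕ → ℚ) : KU) =
      ((fun j => (f j : ℚ) * (g j : ℚ) : ℕ → ℚ) : KU)
    simp

/-- the `*ℤ`-point of a sequence of integral points -/
noncomputable def gz {σ : Type} (z : ℕ → σ → ℤ) : σ → ZU :=
  fun i => ((fun j => z j i : ℕ → ℤ) : ZU)

theorem zq_gz {σ : Type} (z : ℕ → σ → ℤ) (i : σ) : zq (gz z i) = gp z i := rfl

/-- the element of `*ℤ` of a sequence of natural numbers -/
noncomputable def pz (p : ℕ → ℕ) : ZU := ((fun j => (p j : ℤ) : ℕ → ℤ) : ZU)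

/-- `P ∩ *ℤ[X]` -/
noncomputable def PA {σ : Type} (P : Ideal (MvPolynomial σ KU)) : Ideal (MvPolynomial σ ZU) :=
  P.comap (MvPolynomial.map zq)

/-- Hilbert function: dimension of the image of the polynomials of degree `≤ D` in `R ⧸ I` -/
noncomputable def hP {σ κ : Type*} [Fintype σ] [CommRing κ] (I : Ideal (MvPolynomial σ κ))
    (D : ℕ) : ℕ :=
  Module.finrank κ ((restrictTotalDegree σ κ D).map (Ideal.Quotient.mkₐ κ I).toLinearMap)

end Pool.Agent.H37.DTA
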