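import Pool.Agent.H62.N6.Defs
import Pool.Agent.H37.DTA.MonB

/-! MODULE RedH (about 150 lines). Reduction modulo `p` does not increase the Hilbert function.

Let `Pb = redI φ ψ P`, an ideal of `k[X]`. Choose `μ : Fin (hF Pb D) → ..` by `exists_mon_basis` (`hP` is `hF`, by `rfl`): the images of the `monomial (μ i) 1` in `k[X] ⧸ Pb` are linearly independent, of degree `≤ D`. Claim: the images of `monomial (μ i) 1` in `K[X] ⧸ P` are linearly independent over `K`; they are in the
space whose dimension is `hF P D` (`LinearIndependent.fintype_card_le_finrank`). Assume `∑ c_i monomial (μ i) 1 ∈ P`, `c ≠ 0`. `normalize`: write `c i * φ b = φ (f i)` with one common denominator `b` (`hK.frac`, product of the denominators), `φ b ≠ 0`; some `φ (f i) ≠ 0`, so (`hK.ker`, ultrafilter) for almost all `j` the vector `f · j` is not zero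
and `p j` is prime: `ex_norm` gives `d j` (a power of `p j`, nonzero) and `a i j` with `f i j = d j * a i j`, not all `a i j` divisible by `p j`. Then `φ (a i) = c i * (φ b / φ d)`, `t = φ b / φ d`, `φ d ≠ 0` by `hK.ker`; if all `ψ (a i) = 0` then for almost all `j` all `a i j` are divisible by `p j` (finite intersection): contradiction.
Then `G = ∑ C (a i) monomial (μ i) 1` is in `P.comap (map φ)` (its image is `C t * ∑ ..`), its reduction `∑ C (ψ (a i)) monomial (μ i) 1 ∈ Pb`, so all `ψ (a i) = 0`: contradiction.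
`ex_norm`: for a nonzero integral vector `b`: strong induction on `∑ |b i|` (if all `b i` are divisible by `p`, divide by `p`), or the minimum of the exponents of `p`. -/

set_option autoImplicit false

namespace Pool.Agent.H37.DTA

open MvPolynomial Filter Pool.Agent.H62.N6

theorem ex_norm {s : ℕ} (p : ℕ) (hp : p.Prime) (f : Fin s → ℤ) (hf : f ≠ 0) :
    ∃ (d : ℤ) (a : Fin s → ℤ), d ≠ 0 ∧ (∀ i, f i = d * a i) ∧ ∃ i, ¬ (p : ℤ) ∣ a i := by
  obtain ⟨i0, hi0⟩ := Function.ne_iff.1 hf
  obtain ⟨g, hg, hg1⟩ := Finset.extract_gcd f (s := Finset.univ) ⟨i0, Finset.mem_univ _⟩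
  refine ⟨Finset.univ.gcd f, g, ?_, fun i => hg i (Finset.mem_univ i), ?_⟩
  · intro h
    have := hg i0 (Finset.mem_univ _)
    rw [h, zero_mul] at this
    exact hi0 this
  · by_contra hcon
    push Not at hcon
    have h1 : (p : ℤ) ∣ Finset.univ.gcd g := Finset.dvd_gcd fun i _ => hcon i
    rw [hg1] at h1
    have h2 := Int.isUnit_iff.1 (isUnit_of_dvd_one h1)
    have h3 := hp.two_le
    omega

theorem normalize {U : Ultrafilter ℕ} {K : Type} [Field K] {φ : (ℕ → ℤ) →+* K} (hK : IsK U φ)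
    {p : ℕ → ℕ} (hp : ∀ᶠ j in (U : Filter ℕ), (p j).Prime) {k : Type} [Field k]
    {ψ : (ℕ → ℤ) →+* k} (hψ : IsP U p ψ) {s : ℕ} (c : Fin s → K) (hc : c ≠ 0) :
    ∃ (t : K) (a : Fin s → ℕ → ℤ), t ≠ 0 ∧ (∀ i, φ (a i) = t * c i) ∧ ∃ i, ψ (a i) ≠ 0 := by
  classical
  obtain ⟨i0, hi0⟩ := Function.ne_iff.1 hc
  choose A B hB hAB using fun i => hK.frac (c i)
  set b : ℕ → ℤ := ∏ i, B i with hb
  have hb0 : φ b ≠ 0 := by
    rw [hb, map_prod]
    exact Finset.prod_ne_zero_iff.2 fun i _ => hB i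
  set f : Fin s → ℕ → ℤ := fun i => A i * ∏ j ∈ Finset.univ.erase i, B j with hf
  have hf1 : ∀ i, φ (f i) = c i * φ b := by
    intro i
    rw [hf, hb]
    simp only [map_mul, map_prod]
    rw [← hAB i, ← Finset.mul_prod_erase Finset.univ (fun j => φ (B j)) (Finset.mem_univ i)]
    ring
  have hne : ∀ᶠ j in (U : Filter ℕ), f i0 j ≠ 0 := by
    have h1 : φ (f i0) ≠ 0 := by
      rw [hf1]
      exact mul_ne_zero hi0 hb0
    rw [Ne, hK.ker, ← Ultrafilter.eventually_not] at h1
    exact h1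
  have hex : ∀ j, ∃ (d : ℤ) (a : Fin s → ℤ), (p j).Prime → f i0 j ≠ 0 →
      (d ≠ 0 ∧ (∀ i, f i j = d * a i) ∧ ∃ i, ¬ (p j : ℤ) ∣ a i) := by
    intro j
    by_cases h : (p j).Prime ∧ f i0 j ≠ 0
    · obtain ⟨d, a, h1, h2, h3⟩ := ex_norm (p j) h.1 (fun i => f i j)
        (Function.ne_iff.2 ⟨i0, h.2⟩)
      exact ⟨d, a, fun _ _ => ⟨h1, h2, h3⟩⟩
    · exact ⟨0, 0, fun h1 h2 => absurd ⟨h1, h2⟩ h⟩
  choose d a hda using hex
  have hd0 : φ d ≠ 0 := by
    rw [Ne, hK.ker, ← Ultrafilter.eventually_not]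
    filter_upwards [hp, hne] with j h1 h2 using (hda j h1 h2).1
  have hfa : ∀ i, φ (f i) = φ d * φ (fun j => a j i) := by
    intro i
    rw [← map_mul, ← sub_eq_zero, ← map_sub, hK.ker]
    filter_upwards [hp, hne] with j h1 h2
    have := (hda j h1 h2).2.1 i
    simp only [Pi.sub_apply, Pi.mul_apply]
    rw [this, sub_self]
  refine ⟨φ b / φ d, fun i j => a j i, div_ne_zero hb0 hd0, ?_, ?_⟩
  · intro i
    have h1 := hfa i
    rw [hf1 i] at h1
    field_simp
    linear_combination -h1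
  · by_contra hcon
    push Not at hcon
    have h1 : ∀ᶠ j in (U : Filter ℕ), ∀ i, (p j : ℤ) ∣ a j i := by
      rw [eventually_all]
      exact fun i => (hψ.ker _).1 (hcon i)
    obtain ⟨j, hj1, hj2, hj3⟩ := (h1.and (hp.and hne)).exists
    obtain ⟨i, hi⟩ := (hda j hj2 hj3).2.2
    exact hi (hj1 i)

theorem hF_redI_le {U : Ultrafilter ℕ} {σ : Type} [Fintype σ] {K : Type} [Field K]
    {φ : (ℕ → ℤ) →+* K} (hK : IsK U φ) {p : ℕ → ℕ} (hp : ∀ᶠ j in (U : Filter ℕ), (p j).Prime)
    {k : Type} [Field k] {ψ : (ℕ → ℤ) →+* k} (hψ : IsP U p ψ)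
    (P : Ideal (MvPolynomial σ K)) (D : ℕ) : hF (redI φ ψ P) D ≤ hF P D := by
  classical
  obtain ⟨μ, hμ, hli, -⟩ := exists_mon_basis (redI φ ψ P) D
  have hsum : ∀ (F : Type) [Field F] (Q : Ideal (MvPolynomial σ F))
      (g : Fin (hP (redI φ ψ P) D) → F),
      ∑ i, g i • Ideal.Quotient.mk Q (monomial (μ i) (1 : F)) =
        Ideal.Quotient.mk Q (∑ i, monomial (μ i) (g i)) := by
    intro F _ Q g
    rw [map_sum]
    refine Finset.sum_congr rfl fun i _ => ?_
    rw [← Ideal.Quotient.mkₐ_eq_mk F, ← map_smul, smul_monomial, smul_eq_mul, mul_one]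
  have hli2 : LinearIndependent K (fun i => Ideal.Quotient.mk P (monomial (μ i) (1 : K))) := by
    rw [Fintype.linearIndependent_iff]
    intro g hg
    by_contra hcon
    have hg0 : g ≠ 0 := by
      intro h
      exact hcon fun i => by rw [h]; rfl
    obtain ⟨t, a, ht, hta, i0, hi0⟩ := normalize hK hp hψ g hg0
    rw [hsum, Ideal.Quotient.eq_zero_iff_mem] at hg
    have h1 : (∑ i, monomial (μ i) (a i) : MvPolynomial σ (ℕ → ℤ)) ∈
        P.comap (MvPolynomial.map φ) := by
      rw [Ideal.mem_comap, map_sum]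
      have : ∑ i, MvPolynomial.map φ (monomial (μ i) (a i)) =
          C t * ∑ i, monomial (μ i) (g i) := by
        rw [Finset.mul_sum]
        refine Finset.sum_congr rfl fun i _ => ?_
        rw [map_monomial, C_mul_monomial, hta]
      rw [this]
      exact P.mul_mem_left _ hg
    have h2 : (∑ i, monomial (μ i) (ψ (a i)) : MvPolynomial σ k) ∈ redI φ ψ P := by
      have := Ideal.mem_map_of_mem (MvPolynomial.map ψ) h1
      rw [map_sum] at this
      simp only [map_monomial] at this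
      exact this
    have h3 := Fintype.linearIndependent_iff.1 hli (fun i => ψ (a i)) (by
      rw [hsum, Ideal.Quotient.eq_zero_iff_mem]
      exact h2)
    exact hi0 (h3 i0)
  have hfin := finite_image P D
  set W := (restrictTotalDegree σ K D).map (Ideal.Quotient.mkₐ K P).toLinearMap with hW
  have hmem : ∀ i, Ideal.Quotient.mk P (monomial (μ i) (1 : K)) ∈ W := by
    intro i
    refine Submodule.mem_map.2 ⟨monomial (μ i) 1, ?_, rfl⟩
    rw [mem_restrictTotalDegree]
    refine (totalDegree_monomial_le _ _).trans ?_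
    exact hμ i
  have hli3 : LinearIndependent K
      (fun i => (⟨Ideal.Quotient.mk P (monomial (μ i) (1 : K)), hmem i⟩ : W)) :=
    LinearIndependent.of_comp W.subtype hli2
  have := hli3.fintype_card_le_finrank
  rw [Fintype.card_fin] at this
  exact this

end Pool.Agent.H37.DTA
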